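import Pool.Agent.U724.PH.Real

/-!
# Growth of sums of squares of binomial coefficients
-/

set_option autoImplicit false

open Filter Topology

namespace Pool.Agent.U724.PH

lemma sq_sum_ge (n : ℕ) (x : ℝ) :
    ((x + 1) ^ n - x ^ n) ^ 2 ≤ (n : ℝ) * ∑ j ∈ Finset.range n,
      (n.choose (j + 1) : ℝ) ^ 2 * (x ^ 2) ^ (n - (j + 1)) := by
  have h1 : (x + 1) ^ n - x ^ n =
      ∑ j ∈ Finset.range n, (n.choose (j + 1) : ℝ) * x ^ (n - (j + 1)) := by
    have h2 : (x + 1) ^ n = ∑ i ∈ Finset.range (n + 1), (n.choose i : ℝ) * x ^ (n - i) := by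
      rw [add_comm, add_pow]
      refine Finset.sum_congr rfl fun i _ => ?_
      rw [one_pow, one_mul, mul_comm]
    rw [h2, Finset.sum_range_succ']
    simp
  rw [h1]
  refine (sq_sum_le_card_mul_sum_sq).trans (le_of_eq ?_)
  rw [Finset.card_range]
  congr 1
  refine Finset.sum_congr rfl fun j _ => ?_
  rw [mul_pow, ← pow_mul, ← pow_mul, mul_comm 2]

/-- The growth. -/
theorem growth_sq {x : ℝ} (hx : 0 < x) (B : ℕ) (β : ℕ → ℕ)
    (hβ : ∀ k : ℕ, (x ^ 2) ^ k ≤ ((k : ℝ) + 1) ^ B * β k) {A : ℝ} (hA : 0 ≤ A) {q : ℝ} (hq : 0 ≤ q)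
    (hqx : q < x + 1) : ∀ᶠ n : ℕ in atTop, A * (q ^ 2) ^ n ≤
      ∑ j ∈ Finset.range n, (n.choose (j + 1) : ℝ) ^ 2 * (β (n - (j + 1)) : ℝ) := by
  have hx1 : 0 < x + 1 := by linarith
  have t1 := (tendsto_aux (B + 1) (q := (q / (x + 1)) ^ 2) (by positivity)
    (by
      have h1 : q / (x + 1) < 1 := (div_lt_one hx1).2 hqx
      have h2 : 0 ≤ q / (x + 1) := by positivity
      nlinarith)).const_mul (4 * A)
  have t2 := tendsto_aux 0 (q := x / (x + 1)) (by positivity)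
    ((div_lt_one hx1).2 (by linarith))
  rw [mul_zero] at t1
  simp only [pow_zero, one_mul] at t2
  have e1 := t1.eventually_le_const (show (0 : ℝ) < 1 by norm_num)
  have e2 := t2.eventually_le_const (show (0 : ℝ) < 1 / 2 by norm_num)
  filter_upwards [e1, e2, eventually_ge_atTop 1] with n h1 h2 hn
  have hn0 : (0 : ℝ) < n := by exact_mod_cast hn
  have hX : 0 < (x + 1) ^ n := by positivity
  rw [div_pow, div_le_iff₀ hX] at h2
  have h3 : (1 / 2 * (x + 1) ^ n) ^ 2 ≤ ((x + 1) ^ n - x ^ n) ^ 2 :=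
    pow_le_pow_left₀ (by positivity) (by linarith) 2
  have h4 := h3.trans (sq_sum_ge n x)
  have h5 : ∑ j ∈ Finset.range n, (n.choose (j + 1) : ℝ) ^ 2 * (x ^ 2) ^ (n - (j + 1)) ≤
      ((n : ℝ) + 1) ^ B * ∑ j ∈ Finset.range n,
        (n.choose (j + 1) : ℝ) ^ 2 * (β (n - (j + 1)) : ℝ) := by
    rw [Finset.mul_sum]
    refine Finset.sum_le_sum fun j hj => ?_
    have h6 := hβ (n - (j + 1))
    have h7 : (((n - (j + 1) : ℕ) : ℝ) + 1) ^ B ≤ ((n : ℝ) + 1) ^ B := by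
      have h8 : n - (j + 1) ≤ n := by omega
      have h9 : ((n - (j + 1) : ℕ) : ℝ) ≤ n := by exact_mod_cast h8
      exact pow_le_pow_left₀ (by positivity) (by linarith) B
    calc (n.choose (j + 1) : ℝ) ^ 2 * (x ^ 2) ^ (n - (j + 1))
        ≤ (n.choose (j + 1) : ℝ) ^ 2 * (((n : ℝ) + 1) ^ B * (β (n - (j + 1)) : ℝ)) := by
          refine mul_le_mul_of_nonneg_left (h6.trans ?_) (by positivity)
          exact mul_le_mul_of_nonneg_right h7 (Nat.cast_nonneg _)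
      _ = _ := by ring
  set S := ∑ j ∈ Finset.range n, (n.choose (j + 1) : ℝ) ^ 2 * (β (n - (j + 1)) : ℝ) with hS
  have h6 : (1 / 2 * (x + 1) ^ n) ^ 2 ≤ ((n : ℝ) + 1) ^ (B + 1) * S := by
    calc (1 / 2 * (x + 1) ^ n) ^ 2 ≤ (n : ℝ) * (((n : ℝ) + 1) ^ B * S) :=
          h4.trans (mul_le_mul_of_nonneg_left h5 hn0.le)
      _ ≤ ((n : ℝ) + 1) * (((n : ℝ) + 1) ^ B * S) := by
          have hS0 : 0 ≤ S := Finset.sum_nonneg fun j _ => by positivity
          exact mul_le_mul_of_nonneg_right (by linarith) (by positivity)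
      _ = _ := by ring
  have h7 : 4 * A * ((n : ℝ) + 1) ^ (B + 1) * (q ^ 2) ^ n ≤ ((x + 1) ^ n) ^ 2 := by
    have h8 : ((q / (x + 1)) ^ 2) ^ n = (q ^ 2) ^ n / ((x + 1) ^ n) ^ 2 := by
      rw [div_pow, div_pow, ← pow_mul (x + 1), ← pow_mul (x + 1), mul_comm 2 n]
    rw [h8] at h1
    have h9 : 4 * A * (((n : ℝ) + 1) ^ (B + 1) * ((q ^ 2) ^ n / ((x + 1) ^ n) ^ 2)) =
        (4 * A * ((n : ℝ) + 1) ^ (B + 1) * (q ^ 2) ^ n) / ((x + 1) ^ n) ^ 2 := by ring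
    rw [h9, div_le_iff₀ (by positivity), one_mul] at h1
    exact h1
  have h8 : (0 : ℝ) < ((n : ℝ) + 1) ^ (B + 1) := by positivity
  refine le_of_mul_le_mul_left ?_ h8
  refine le_trans ?_ h6
  nlinarith

end Pool.Agent.U724.PH
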