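import Pool.Agent.U724.PH.SimpleSum

/-!
# Constituents and the law for additive functors
-/

set_option autoImplicit false
set_option linter.unusedSectionVars false

open CategoryTheory Limits MonoidalCategory Module Filter Topology
open Pool.Agent.Y112.SR Pool.Agent.Y112.KD Pool.Agent.N64.AF Pool.Agent.U724.NT
open Pool.Agent.Y116.MT (tr)
open scoped ENNReal

namespace Pool.Agent.U724.PH

universe v u w t x

variable {C : Type u} [Category.{v} C] [Preadditive C] [MonoidalCategory C]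
  [MonoidalPreadditive C] [SymmetricCategory C] [RightRigidCategory C]
  {Λ : Type t} [Field Λ] [CharZero Λ] [Linear Λ C] [MonoidalLinear Λ C]
  {K : Type w} [Field K] [IsAlgClosed K] [Algebra Λ K] {R : SuperRealisation C K}

lemma dep_stab {T : C} (F : C ⥤ ModuleCat.{x} Λ) [F.Additive] [F.Linear Λ] (j : ℕ) :
    IsStab F (Dep T F j) :=
  fun _ _ g _ hz => dep_map F g hz

/-- **The law and the constituents**: if `N` is finite and less than the ranks of all simple parts `e i`
whose sum is `f` modulo numerical equivalence, then `f` fixes no nonzero element. -/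
theorem constituent_law {T : C} [ExactPairing T T] (h : IsPow Λ R T) (F : C ⥤ ModuleCat.{x} Λ)
    [F.Additive] [F.Linear Λ] : ∃ N : ℕ∞,
      HasLaw Λ T (fun n => dimE Λ (F.obj (tp T n))) N ∧
      (N = 0 ↔ ∀ n, Subsingleton (F.obj (tp T n))) ∧
      ∀ (m s : ℕ) (r : Fin s → ℕ) (e : Fin s → (tp T m ⟶ tp T m)) (f : tp T m ⟶ tp T m),
        (∀ i, NumIdem (e i) ∧ IsRk R (e i) (r i) ∧ NumSimple (e i)) →
        NumTriv (f - ∑ i, e i) → N ≠ ⊤ → (∀ i, N < r i) →
          ∀ z : F.obj (tp T m), (F.map f).hom z = z → z = 0 := by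
  classical
  obtain ⟨N, h1, h2, h3⟩ := law h F
  refine ⟨N, h1, h2, fun m s r e f he hf hN hlt z hfz => ?_⟩
  by_contra hz
  obtain ⟨h4, -⟩ := h3 hN
  obtain ⟨N', rfl⟩ := ENat.ne_top_iff_exists.1 hN
  obtain ⟨-, hst⟩ := structure_thm h F (N := N') h1
  have hall : z ∈ Dep T F N' (tp T m) := by
    intro b g hg
    rw [hst m b g hg]
    rfl
  obtain ⟨d, hd, hd'⟩ : ∃ d, z ∈ Dep T F (d + 1) (tp T m) ∧ z ∉ Dep T F d (tp T m) := by
    have hne : ∃ j, z ∈ Dep T F j (tp T m) := ⟨N', hall⟩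
    have h5 : Nat.find hne ≠ 0 := by
      intro h6
      have h7 := Nat.find_spec hne
      rw [h6] at h7
      exact hz (dep_zero F h7)
    obtain ⟨d, hd⟩ := Nat.exists_eq_succ_of_ne_zero h5
    refine ⟨d, ?_, ?_⟩
    · have h7 := Nat.find_spec hne
      rw [hd] at h7
      exact h7
    · exact Nat.find_min hne (by omega)
  have h5 : ∃ i, (F.map (e i)).hom z ∉ Dep T F d (tp T m) := by
    by_contra hcon
    push Not at hcon
    apply hd'
    have h6 := dep_pred h.real F hf hd
    have h7 : (F.map (f - ∑ i, e i)).hom z = z - ∑ i, (F.map (e i)).hom z := by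
      rw [F.map_sub, F.map_sum]
      change (F.map f).hom z - (∑ i, F.map (e i)).hom z = _
      rw [hfz, ModuleCat.hom_sum, LinearMap.sum_apply]
    rw [h7] at h6
    have h8 : ∑ i, (F.map (e i)).hom z ∈ Dep T F d (tp T m) :=
      Submodule.sum_mem _ fun i _ => hcon i
    have h9 := Submodule.add_mem _ h6 h8
    rwa [sub_add_cancel] at h9
  obtain ⟨i, hi⟩ := h5
  obtain ⟨hidem, hrk, hsim⟩ := he i
  let G : C ⥤ ModuleCat.{x} Λ := quoS F (Dep T F d) (dep_stab F d)
  let w : G.obj (tp T m) :=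
    (Submodule.Quotient.mk ((F.map (e i)).hom z) : F.obj (tp T m) ⧸ Dep T F d (tp T m))
  have hw : w ≠ 0 := by
    intro h6
    apply hi
    rwa [← Submodule.Quotient.mk_eq_zero]
  have hew : (G.map (e i)).hom w = w := by
    change (Submodule.Quotient.mk ((F.map (e i)).hom ((F.map (e i)).hom z)) :
      F.obj (tp T m) ⧸ Dep T F d (tp T m)) = Submodule.Quotient.mk ((F.map (e i)).hom z)
    rw [Submodule.Quotient.eq]
    have h6 := dep_pred h.real F hidem hd
    have h7 : (F.map (e i ≫ e i - e i)).hom z =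
        (F.map (e i)).hom ((F.map (e i)).hom z) - (F.map (e i)).hom z := by
      rw [F.map_sub, F.map_comp]
      rfl
    rwa [h7] at h6
  have h5 := eventually_nr h hidem hrk (δ := 1 / 2) (by norm_num)
  obtain ⟨n₀, hn₀⟩ := eventually_atTop.1 h5
  have h6 := hn₀ (2 * n₀) (by omega)
  rw [Pool.Agent.N505.AFE2.cmpSeq_even] at h6
  have hfin := (h4 (2 * n₀)).1
  have hfinG : Module.Finite Λ (G.obj (tp T (2 * n₀))) :=
    inferInstanceAs (Module.Finite Λ
      (F.obj (tp T (2 * n₀)) ⧸ Dep T F d (tp T (2 * n₀))))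
  have h7 := nr_le_dim h.real G hidem hsim
    (fun y hy => quoS_nil (dep_stab F d) y ((h4 m).2.2 y hy)) hw hew (tp T (2 * n₀)) hfinG
  have h7' : finrank Λ (G.obj (tp T (2 * n₀))) ≤ finrank Λ (F.obj (tp T (2 * n₀))) :=
    Submodule.finrank_quotient_le (Dep T F d (tp T (2 * n₀)))
  have h8 : finrank Λ (F.obj (tp T (2 * n₀))) ≤ N' * numRank Λ (tp T (2 * n₀)) := by
    exact_mod_cast (h4 n₀).2.1
  have h9 : (0 : ℝ) < numRank Λ (tp T (2 * n₀)) := by
    exact_mod_cast (numRank_mono h (2 * n₀)).1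
  have h10 : ((nr Λ (e i) (𝟙 (tp T (2 * n₀))) : ℕ) : ℝ) ≤ N' * numRank Λ (tp T (2 * n₀)) := by
    exact_mod_cast (h7.trans h7').trans h8
  have h11 : ((r i : ℝ) - 1 / 2) ≤ N' := by
    have h12 := h6.trans h10
    exact le_of_mul_le_mul_right h12 h9
  have h13 : N' < r i := by exact_mod_cast hlt i
  have h14 : (N' : ℝ) + 1 ≤ r i := by exact_mod_cast h13
  linarith

end Pool.Agent.U724.PH
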