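import Pool.Agent.U724.PH.Simple

/-!
# Several simple summands and the law for additive functors
-/

set_option autoImplicit false
set_option linter.unusedSectionVars false

open CategoryTheory Limits MonoidalCategory Module Filter Topology
open Pool.Agent.Y112.SR Pool.Agent.Y112.KD Pool.Agent.N64.AF Pool.Agent.U724.NT
open Pool.Agent.Y116.MT (tr)
open scoped ENNReal

namespace Pool.Agent.U724.PH

universe v u w t x

/-- Linear algebra. -/
lemma sup_step {Λ E Q W : Type*} [Field Λ] [AddCommGroup E] [Module Λ E] [AddCommGroup Q]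
    [Module Λ Q] [AddCommGroup W] [Module Λ W] [Module.Finite Λ W] (Θ : E →ₗ[Λ] W)
    (Ψ : E →ₗ[Λ] Q) (B : Submodule Λ W) (h : ∀ φ, Θ φ ∈ B → Ψ φ = 0) :
    finrank Λ (LinearMap.range Ψ) + finrank Λ B ≤
      finrank Λ (LinearMap.range Θ ⊔ B : Submodule Λ W) := by
  set U : Submodule Λ W := LinearMap.range Θ ⊔ B with hU
  let P : E →ₗ[Λ] (W ⧸ B) := B.mkQ ∘ₗ Θ
  have h1 : LinearMap.ker P ≤ LinearMap.ker Ψ := by
    intro φ hφ
    refine h φ ?_
    have h2 : B.mkQ (Θ φ) = 0 := hφ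
    rwa [Submodule.mkQ_apply, Submodule.Quotient.mk_eq_zero] at h2
  have hq : Module.Finite Λ (E ⧸ LinearMap.ker P) :=
    Module.Finite.equiv P.quotKerEquivRange.symm
  have h2 : finrank Λ (LinearMap.range Ψ) ≤ finrank Λ (LinearMap.range P) := by
    rw [← Ψ.quotKerEquivRange.finrank_eq, ← P.quotKerEquivRange.finrank_eq]
    exact LinearMap.finrank_le_finrank_of_surjective (Submodule.factor_surjective h1)
  let g : U →ₗ[Λ] (W ⧸ B) := B.mkQ.domRestrict U
  have h3 : LinearMap.range P ≤ LinearMap.range g := by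
    rintro _ ⟨φ, rfl⟩
    exact ⟨⟨Θ φ, Submodule.mem_sup_left ⟨φ, rfl⟩⟩, rfl⟩
  have h4 := LinearMap.finrank_range_add_finrank_ker g
  have h5 : finrank Λ (LinearMap.ker g) = finrank Λ B := by
    have h6 : LinearMap.ker g = B.comap U.subtype := by
      rw [LinearMap.ker_domRestrict, Submodule.ker_mkQ]
    rw [h6]
    exact (Submodule.comapSubtypeEquivOfLe (le_sup_right : B ≤ U)).finrank_eq
  have h6 := Submodule.finrank_mono h3
  omega

variable {C : Type u} [Category.{v} C] [Preadditive C] [MonoidalCategory C]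
  [MonoidalPreadditive C] [SymmetricCategory C] [RightRigidCategory C]
  {Λ : Type t} [Field Λ] [CharZero Λ] [Linear Λ C] [MonoidalLinear Λ C]
  {K : Type w} [Field K] [IsAlgClosed K] [Algebra Λ K] {R : SuperRealisation C K}

lemma numPow_head (hR : IsReal Λ R) {T : C} {a c : ℕ} {n : tp T a ⟶ tp T c} (hn : NumTriv n)
    (j : ℕ) : ∀ {Z : C} {f : tp T c ⟶ Z}, NumPow T j f → NumPow T (j + 1) (n ≫ f) := by
  induction j with
  | zero =>
    intro Z f _
    refine ⟨a, 𝟙 _, n ≫ f, trivial, ?_, (Category.id_comp _).symm⟩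
    have h1 := NumTriv.comp hR hn (𝟙 _) f
    rwa [Category.id_comp] at h1
  | succ j ih =>
    rintro Z f ⟨b, g, y, hg, hy, rfl⟩
    exact ⟨b, n ≫ g, y, ih hg, hy, (Category.assoc _ _ _).symm⟩

lemma numPow_pre {T : C} (k : ℕ) : ∀ {W Y Z : C} (g : W ⟶ Y) {f : Y ⟶ Z}, NumPow T k f →
    NumPow T k (g ≫ f) := by
  induction k with
  | zero => intro W Y Z g f _; trivial
  | succ k ih =>
    rintro W Y Z g f ⟨b, g₀, y, hg, hy, rfl⟩
    exact ⟨b, g ≫ g₀, y, ih g hg, hy, (Category.assoc _ _ _).symm⟩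

/-- The elements which are killed by the products of `j` numerically trivial morphisms. -/
def Dep (T : C) (F : C ⥤ ModuleCat.{x} Λ) [F.Additive] [F.Linear Λ] (j : ℕ) (Z : C) :
    Submodule Λ (F.obj Z) where
  carrier := {z | ∀ (b : ℕ) (f : Z ⟶ tp T b), NumPow T j f → (F.map f).hom z = 0}
  zero_mem' := fun b f _ => map_zero _
  add_mem' := fun {x y} hx hy b f hf => by rw [map_add, hx b f hf, hy b f hf, add_zero]
  smul_mem' := fun c z hz b f hf => by rw [map_smul, hz b f hf, smul_zero]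

lemma dep_map {T : C} (F : C ⥤ ModuleCat.{x} Λ) [F.Additive] [F.Linear Λ] {j : ℕ} {Y Z : C}
    (g : Y ⟶ Z) {z : F.obj Y} (hz : z ∈ Dep T F j Y) : (F.map g).hom z ∈ Dep T F j Z := by
  intro b f hf
  have h1 := hz b (g ≫ f) (numPow_pre j g hf)
  rw [F.map_comp] at h1
  exact h1

lemma dep_pred (hR : IsReal Λ R) {T : C} (F : C ⥤ ModuleCat.{x} Λ) [F.Additive] [F.Linear Λ]
    {j a c : ℕ} {n : tp T a ⟶ tp T c} (hn : NumTriv n) {z : F.obj (tp T a)}
    (hz : z ∈ Dep T F (j + 1) (tp T a)) : (F.map n).hom z ∈ Dep T F j (tp T c) := by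
  intro b f hf
  have h1 := hz b (n ≫ f) (numPow_head hR hn j hf)
  rw [F.map_comp] at h1
  exact h1

lemma dep_mono {T : C} (F : C ⥤ ModuleCat.{x} Λ) [F.Additive] [F.Linear Λ] {i j : ℕ}
    (h : i ≤ j) (Z : C) : Dep T F i Z ≤ Dep T F j Z :=
  fun _ hz b f hf => hz b f (hf.mono h)

lemma dep_zero {T : C} (F : C ⥤ ModuleCat.{x} Λ) [F.Additive] [F.Linear Λ] {a : ℕ}
    {z : F.obj (tp T a)} (hz : z ∈ Dep T F 0 (tp T a)) : z = 0 := by
  have h1 := hz a (𝟙 _) trivial
  rw [F.map_id] at h1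
  exact h1

/-- The evaluation at an element. -/
def evalAt (F : C ⥤ ModuleCat.{x} Λ) [F.Additive] [F.Linear Λ] {Y : C} (Z : C) (z : F.obj Y) :
    (Y ⟶ Z) →ₗ[Λ] F.obj Z where
  toFun φ := (F.map φ).hom z
  map_add' a b := by
    rw [F.map_add]
    rfl
  map_smul' c a := by
    rw [F.map_smul]
    rfl

/-- The sum of the ranks. -/
lemma sum_nr_le (hR : IsReal Λ R) {T : C} (F : C ⥤ ModuleCat.{x} Λ) [F.Additive] [F.Linear Λ]
    {ι : Type*} (m : ι → ℕ) (e : ∀ i, tp T (m i) ⟶ tp T (m i))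
    (hs : ∀ i, NumSimple (e i))
    (ho : ∀ i j, i ≠ j → ∀ u : tp T (m i) ⟶ tp T (m j), NumTriv (e i ≫ u ≫ e j))
    (z : ∀ i, F.obj (tp T (m i))) (hez : ∀ i, (F.map (e i)).hom (z i) = z i) (d : ι → ℕ)
    (hd : ∀ i, z i ∈ Dep T F (d i + 1) (tp T (m i)))
    (hd' : ∀ i, z i ∉ Dep T F (d i) (tp T (m i))) (n : ℕ)
    (hfin : Module.Finite Λ (F.obj (tp T n))) (he : ∀ i, NumIdem (e i)) (S : Finset ι) :
    ∑ i ∈ S, nr Λ (e i) (𝟙 (tp T n)) ≤
      finrank Λ (⨆ i ∈ S, LinearMap.range (evalAt F (tp T n) (z i)) :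
        Submodule Λ (F.obj (tp T n))) := by
  classical
  induction S using Finset.induction_on_max_value d with
  | empty => simp
  | insert a S ha hmax ih =>
    rw [Finset.sum_insert ha, Finset.iSup_insert]
    set B : Submodule Λ (F.obj (tp T n)) :=
      ⨆ i ∈ S, LinearMap.range (evalAt F (tp T n) (z i)) with hB
    let Ψ : (tp T (m a) ⟶ tp T n) →ₗ[Λ]
        ((tp T (m a) ⟶ tp T n) ⧸ numIdeal Λ (tp T (m a)) (tp T n)) :=
      (numIdeal Λ (tp T (m a)) (tp T n)).mkQ ∘ₗ Linear.rightComp Λ (tp T (m a)) (𝟙 (tp T n)) ∘ₗ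
        Linear.leftComp Λ (tp T n) (e a)
    have key : ∀ φ, evalAt F (tp T n) (z a) φ ∈ B → Ψ φ = 0 := by
      intro φ hφ
      have hgoal : NumTriv (e a ≫ φ) := by
        intro ψ
        by_contra hcon
        have h1 : ¬ NumTriv (e a ≫ (φ ≫ ψ) ≫ e a) := by
          intro h2
          have h3 := h2 (𝟙 _)
          rw [Category.comp_id] at h3
          have h4 : tr ((e a ≫ (φ ≫ ψ)) ≫ e a) = 0 := by rw [Category.assoc]; exact h3
          rw [tr_comm_zero hR] at h4
          have h5 : e a ≫ e a ≫ φ ≫ ψ = (e a ≫ φ) ≫ ψ + (e a ≫ e a - e a) ≫ (φ ≫ ψ) := by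
            rw [Preadditive.sub_comp]
            simp only [Category.assoc]
            abel
          rw [h5, tr_add', he a (φ ≫ ψ), add_zero] at h4
          exact hcon h4
        obtain ⟨v, hv⟩ := hs a (φ ≫ ψ) h1
        -- the elements of `B` are mapped by `ψ e v` into the elements of smaller depth
        have h2 : ∀ w ∈ B, (F.map (ψ ≫ e a ≫ v)).hom w ∈ Dep T F (d a) (tp T (m a)) := by
          have h3 : B ≤ (Dep T F (d a) (tp T (m a))).comap (F.map (ψ ≫ e a ≫ v)).hom := by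
            refine iSup₂_le fun i hi => ?_
            rintro _ ⟨χ, rfl⟩
            have hia : i ≠ a := fun h => ha (h ▸ hi)
            have h4 : NumTriv ((e i ≫ (χ ≫ ψ) ≫ e a) ≫ v) := by
              have h5 := NumTriv.comp hR (ho i a hia (χ ≫ ψ)) (𝟙 _) v
              rwa [Category.id_comp] at h5
            have h5 := dep_pred hR F h4 (hd i)
            have h6 : (F.map (ψ ≫ e a ≫ v)).hom (evalAt F (tp T n) (z i) χ) =
                (F.map ((e i ≫ (χ ≫ ψ) ≫ e a) ≫ v)).hom (z i) := by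
              have h7 : (F.map ((e i ≫ (χ ≫ ψ) ≫ e a) ≫ v)) =
                  F.map (e i) ≫ F.map χ ≫ F.map (ψ ≫ e a ≫ v) := by
                rw [← F.map_comp, ← F.map_comp]
                simp only [Category.assoc]
              rw [h7]
              change _ = (F.map (ψ ≫ e a ≫ v)).hom ((F.map χ).hom ((F.map (e i)).hom (z i)))
              rw [hez i]
              rfl
            change (F.map (ψ ≫ e a ≫ v)).hom (evalAt F (tp T n) (z i) χ) ∈
              Dep T F (d a) (tp T (m a))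
            rw [h6]
            exact dep_mono F (hmax i hi) _ h5
          exact fun w hw => h3 hw
        have h3 := h2 _ hφ
        have h4 := dep_pred hR F hv (hd a)
        have h5 : (F.map ((e a ≫ (φ ≫ ψ) ≫ e a) ≫ v - e a)).hom (z a) =
            (F.map (ψ ≫ e a ≫ v)).hom (evalAt F (tp T n) (z a) φ) - z a := by
          have h7 : (F.map ((e a ≫ (φ ≫ ψ) ≫ e a) ≫ v - e a)) =
              F.map (e a) ≫ F.map φ ≫ F.map (ψ ≫ e a ≫ v) - F.map (e a) := by
            rw [F.map_sub, ← F.map_comp, ← F.map_comp]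
            simp only [Category.assoc]
          rw [h7]
          change (F.map (ψ ≫ e a ≫ v)).hom ((F.map φ).hom ((F.map (e a)).hom (z a))) -
            (F.map (e a)).hom (z a) = _
          rw [hez a]
          rfl
        rw [h5] at h4
        have h6 := Submodule.sub_mem _ h3 h4
        rw [sub_sub_cancel] at h6
        exact hd' a h6
      change Submodule.Quotient.mk ((e a ≫ φ) ≫ 𝟙 _) = 0
      rw [Category.comp_id, Submodule.Quotient.mk_eq_zero]
      exact hgoal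
    have h1 := sup_step (evalAt F (tp T n) (z a)) Ψ B key
    have h2 : nr Λ (e a) (𝟙 (tp T n)) = finrank Λ (LinearMap.range Ψ) := rfl
    omega

/-- **The law and several simple summands**: if each of the simple parts `(T ^ (m i), e i)` of rank
`r i`, which are pairwise not isomorphic, contains a nonzero element then `N ≥ Σ r i`. -/
theorem simple_sum_law {T : C} [ExactPairing T T] (h : IsPow Λ R T) (F : C ⥤ ModuleCat.{x} Λ)
    [F.Additive] [F.Linear Λ] : ∃ N : ℕ∞,
      HasLaw Λ T (fun n => dimE Λ (F.obj (tp T n))) N ∧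
      (N = 0 ↔ ∀ n, Subsingleton (F.obj (tp T n))) ∧
      ∀ (s : ℕ) (m r : Fin s → ℕ) (e : ∀ i, tp T (m i) ⟶ tp T (m i)),
        (∀ i, NumIdem (e i) ∧ IsRk R (e i) (r i) ∧ NumSimple (e i)) →
        (∀ i j, i ≠ j → ∀ u : tp T (m i) ⟶ tp T (m j), NumTriv (e i ≫ u ≫ e j)) →
        (∀ i, ∃ z : F.obj (tp T (m i)), z ≠ 0 ∧ (F.map (e i)).hom z = z) →
          ((∑ i, r i : ℕ) : ℕ∞) ≤ N := by
  classical
  obtain ⟨N, h1, h2, h3⟩ := law h F
  refine ⟨N, h1, h2, fun s m r e he ho hz => ?_⟩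
  choose z hz hez using hz
  by_cases hN : N = ⊤
  · rw [hN]
    exact le_top
  obtain ⟨h4, -⟩ := h3 hN
  obtain ⟨N', rfl⟩ := ENat.ne_top_iff_exists.1 hN
  obtain ⟨-, hst⟩ := structure_thm h F (N := N') h1
  have hall : ∀ i, z i ∈ Dep T F N' (tp T (m i)) := by
    intro i b f hf
    rw [hst (m i) b f hf]
    rfl
  have hex : ∀ i, ∃ d, z i ∈ Dep T F (d + 1) (tp T (m i)) ∧ z i ∉ Dep T F d (tp T (m i)) := by
    intro i
    have hne : ∃ j, z i ∈ Dep T F j (tp T (m i)) := ⟨N', hall i⟩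
    have h5 : Nat.find hne ≠ 0 := by
      intro h6
      have h7 := Nat.find_spec hne
      rw [h6] at h7
      exact hz i (dep_zero F h7)
    obtain ⟨d, hd⟩ := Nat.exists_eq_succ_of_ne_zero h5
    refine ⟨d, ?_, ?_⟩
    · have h7 := Nat.find_spec hne
      rw [hd] at h7
      exact h7
    · exact Nat.find_min hne (by omega)
  choose d hd hd' using hex
  have h5 : ∀ᶠ n in atTop, ∀ i, ((r i : ℝ) - 1 / (2 * (s + 1))) *
      cmpSeq (fun n => numRank Λ (tp T n)) (bt R T) n ≤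
        nr Λ (e i) (𝟙 (tp T n)) := by
    rw [eventually_all]
    intro i
    exact eventually_nr h (he i).1 (he i).2.1 (δ := 1 / (2 * (s + 1))) (by positivity)
  obtain ⟨n₀, hn₀⟩ := eventually_atTop.1 h5
  have h6 := hn₀ (2 * n₀) (by omega)
  simp_rw [Pool.Agent.N505.AFE2.cmpSeq_even] at h6
  have h7 := sum_nr_le h.real F m e (fun i => (he i).2.2) ho z hez d hd hd' (2 * n₀)
    (h4 (2 * n₀)).1 (fun i => (he i).1) Finset.univ
  have hfin := (h4 (2 * n₀)).1
  have h7' := h7.trans (Submodule.finrank_le _)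
  have h8 : finrank Λ (F.obj (tp T (2 * n₀))) ≤ N' * numRank Λ (tp T (2 * n₀)) := by
    exact_mod_cast (h4 n₀).2.1
  have h9 : (0 : ℝ) < numRank Λ (tp T (2 * n₀)) := by
    exact_mod_cast (numRank_mono h (2 * n₀)).1
  have h10 : ((∑ i, nr Λ (e i) (𝟙 (tp T (2 * n₀))) : ℕ) : ℝ) ≤
      N' * numRank Λ (tp T (2 * n₀)) := by
    exact_mod_cast h7'.trans h8
  have h11 : ((∑ i, (r i : ℝ)) - 1 / 2) * numRank Λ (tp T (2 * n₀)) ≤
      N' * numRank Λ (tp T (2 * n₀)) := by
    refine le_trans ?_ h10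
    push_cast
    have h12 : ∑ i, ((r i : ℝ) - 1 / (2 * (s + 1))) * numRank Λ (tp T (2 * n₀)) ≤
        ∑ i, (nr Λ (e i) (𝟙 (tp T (2 * n₀))) : ℝ) := Finset.sum_le_sum fun i _ => h6 i
    refine le_trans ?_ h12
    rw [← Finset.sum_mul]
    refine mul_le_mul_of_nonneg_right ?_ h9.le
    rw [Finset.sum_sub_distrib, Finset.sum_const, Finset.card_univ, Fintype.card_fin,
      nsmul_eq_mul]
    have h13 : (s : ℝ) * (1 / (2 * (s + 1))) ≤ 1 / 2 := by
      rw [mul_one_div, div_le_div_iff₀ (by positivity) (by norm_num)]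
      nlinarith [(Nat.cast_nonneg s : (0 : ℝ) ≤ s)]
    linarith
  have h12 : (∑ i, (r i : ℝ)) - 1 / 2 ≤ N' := le_of_mul_le_mul_right h11 h9
  have h13 : (∑ i, r i) ≤ N' := by
    by_contra hcon
    push Not at hcon
    have h14 : (N' : ℝ) + 1 ≤ ((∑ i, r i : ℕ) : ℝ) := by exact_mod_cast hcon
    push_cast at h14
    linarith
  exact_mod_cast h13

end Pool.Agent.U724.PH
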