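import Pool.Agent.U724.PH.KimB

/-!
# The dichotomy
-/

set_option autoImplicit false
set_option linter.unusedSectionVars false

open CategoryTheory Limits MonoidalCategory Module Filter Topology
open Pool.Agent.Y112.SR Pool.Agent.Y112.KD Pool.Agent.R905 Pool.Agent.N64.AF
open scoped ENNReal

namespace Pool.Agent.U724.PH

universe v u w t x

variable {C : Type u} [Category.{v} C] [Preadditive C] [MonoidalCategory C]
  [MonoidalPreadditive C] [SymmetricCategory C] [RightRigidCategory C]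
  [Linear ℚ C] [MonoidalLinear ℚ C] [IsIdempotentComplete C]
  {K : Type w} [Field K] [IsAlgClosed K] [Algebra ℚ K] {R : SuperRealisation C K}

/-- The homologically trivial cycles grow at least like `c ^ n`. -/
def GrowsLike (hR : IsReal ℚ R) (T : C) (c : ℝ) : Prop :=
  ∀ᶠ n : ℕ in atTop, ENNReal.ofReal (c ^ n) ≤
    ((dimE ℚ (homSub hR (𝟙_ C) (tp T n)) : ℕ∞) : ℝ≥0∞)

theorem nil_or_grows {T : C} [ExactPairing T T] (h : IsPow ℚ R T) {M : ℕ} (hM : 0 < M) :
    (∀ y : End (tp T M), R.H.map (y : tp T M ⟶ tp T M) = 0 → IsNilpotent y) ∨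
      ∀ c : ℝ, 0 ≤ c → c ^ M < (bt R T : ℝ) ^ M + 1 → GrowsLike h.real T c := by
  by_cases hn : ∀ y : End (tp T M), R.H.map (y : tp T M ⟶ tp T M) = 0 → IsNilpotent y
  · exact Or.inl hn
  · push Not at hn
    obtain ⟨y, hy, hn⟩ := hn
    exact Or.inr fun c hc hcb => gap_of_not_nil h hM hy hn hc hcb

theorem kimura_or_grows {T : C} [ExactPairing T T] (h : IsPow ℚ R T) :
    Pool.Agent.R905.IsKimuraFinite T ∨ ∀ c : ℝ, 0 ≤ c →
      c ^ (bt R T + 1) < (bt R T : ℝ) ^ (bt R T + 1) + 1 → GrowsLike h.real T c := by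
  rcases nil_or_grows h (Nat.succ_pos (bt R T)) with h1 | h1
  · exact Or.inl (kimura_of_nil_one h h1)
  · exact Or.inr h1

end Pool.Agent.U724.PH
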