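import Pool.Agent.U724.PH.KimC
import Pool.Agent.U724.NT.Defs

/-!
# Simple summands and the law for additive functors
-/

set_option autoImplicit false
set_option linter.unusedSectionVars false

open CategoryTheory Limits MonoidalCategory Module Filter Topology
open Pool.Agent.Y112.SR Pool.Agent.Y112.KD Pool.Agent.N64.AF Pool.Agent.U724.NT
open Pool.Agent.Y116.MT (tr)
open scoped ENNReal

namespace Pool.Agent.U724.PH

universe v u w t x

variable {C : Type u} [Category.{v} C] [Preadditive C] [MonoidalCategory C]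
  [MonoidalPreadditive C] [SymmetricCategory C] [RightRigidCategory C]

/-- The summand `(Y, e)` is simple modulo numerical equivalence: each `e u e` which is not numerically
trivial is invertible, with an inverse `v`, modulo numerical equivalence. -/
def NumSimple {Y : C} (e : Y ⟶ Y) : Prop :=
  ∀ u : Y ⟶ Y, ¬ NumTriv (e ≫ u ≫ e) → ∃ v : Y ⟶ Y, NumTriv ((e ≫ u ≫ e) ≫ v - e)

variable {Λ : Type t} [Field Λ] [CharZero Λ] [Linear Λ C] [MonoidalLinear Λ C]
  {K : Type w} [Field K] [IsAlgClosed K] [Algebra Λ K] {R : SuperRealisation C K}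

/-- The annihilator of an element of the simple part is numerically trivial. -/
lemma ann_numTriv (hR : IsReal Λ R) (F : C ⥤ ModuleCat.{x} Λ) [F.Additive] {Y Z : C} {e : Y ⟶ Y}
    (he : NumIdem e) (hs : NumSimple e)
    (hnil : ∀ y : Y ⟶ Y, NumTriv y → IsNilpotent ((F.map y).hom : Module.End Λ (F.obj Y)))
    {z : F.obj Y} (hz : z ≠ 0) (hez : (F.map e).hom z = z) {φ : Y ⟶ Z}
    (hφ : (F.map φ).hom z = 0) : NumTriv (e ≫ φ) := by
  intro ψ
  by_contra hcon
  have h1 : ¬ NumTriv (e ≫ (φ ≫ ψ) ≫ e) := by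
    intro h2
    have h3 := h2 (𝟙 Y)
    rw [Category.comp_id] at h3
    have h4 : tr ((e ≫ (φ ≫ ψ)) ≫ e) = 0 := by rw [Category.assoc]; exact h3
    rw [tr_comm_zero hR] at h4
    have h5 : e ≫ e ≫ φ ≫ ψ = (e ≫ φ) ≫ ψ + (e ≫ e - e) ≫ (φ ≫ ψ) := by
      rw [Preadditive.sub_comp]
      simp only [Category.assoc]
      abel
    rw [h5, tr_add', he (φ ≫ ψ), add_zero] at h4
    exact hcon h4
  obtain ⟨v, hv⟩ := hs (φ ≫ ψ) h1
  obtain ⟨k, hk⟩ := hnil _ hv
  have h2 : (F.map ((e ≫ (φ ≫ ψ) ≫ e) ≫ v - e)).hom z = -z := by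
    have h3 : (F.map ((e ≫ (φ ≫ ψ) ≫ e) ≫ v - e)) =
        F.map e ≫ F.map φ ≫ F.map (ψ ≫ e ≫ v) - F.map e := by
      rw [F.map_sub, ← F.map_comp, ← F.map_comp]
      simp only [Category.assoc]
    rw [h3]
    change (F.map (ψ ≫ e ≫ v)).hom ((F.map φ).hom ((F.map e).hom z)) - (F.map e).hom z = -z
    rw [hez, hφ, map_zero, zero_sub]
  have h3 : ∀ j : ℕ, (((F.map ((e ≫ (φ ≫ ψ) ≫ e) ≫ v - e)).hom : Module.End Λ (F.obj Y)) ^ j) z =
      (-1 : Λ) ^ j • z := by
    intro j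
    induction j with
    | zero => simp
    | succ j ih =>
      rw [pow_succ', Module.End.mul_apply, ih, map_smul, h2, pow_succ, smul_neg, mul_neg_one,
        neg_smul]
  have h4 := h3 k
  rw [hk, LinearMap.zero_apply] at h4
  have h5 : (-1 : Λ) ^ k ≠ 0 := pow_ne_zero _ (neg_ne_zero.2 one_ne_zero)
  exact hz ((smul_eq_zero.1 h4.symm).resolve_left h5)

/-- The value of the functor contains the morphisms from the simple part. -/
lemma nr_le_dim (hR : IsReal Λ R) (F : C ⥤ ModuleCat.{x} Λ) [F.Additive] [F.Linear Λ] {Y : C}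
    {e : Y ⟶ Y} (he : NumIdem e) (hs : NumSimple e)
    (hnil : ∀ y : Y ⟶ Y, NumTriv y → IsNilpotent ((F.map y).hom : Module.End Λ (F.obj Y)))
    {z : F.obj Y} (hz : z ≠ 0) (hez : (F.map e).hom z = z) (Z : C)
    (hfin : Module.Finite Λ (F.obj Z)) : nr Λ e (𝟙 Z) ≤ finrank Λ (F.obj Z) := by
  let Θ : (Y ⟶ Z) →ₗ[Λ] F.obj Z :=
    { toFun := fun φ => (F.map φ).hom z
      map_add' := fun a b => by
        rw [F.map_add]
        rfl
      map_smul' := fun c a => by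
        rw [F.map_smul]
        rfl }
  let Ψ : (Y ⟶ Z) →ₗ[Λ] ((Y ⟶ Z) ⧸ numIdeal Λ Y Z) :=
    (numIdeal Λ Y Z).mkQ ∘ₗ Linear.rightComp Λ Y (𝟙 Z) ∘ₗ Linear.leftComp Λ Z e
  have h1 : LinearMap.ker Θ ≤ LinearMap.ker Ψ := by
    intro φ hφ
    have h2 : NumTriv (e ≫ φ) := ann_numTriv hR F he hs hnil hz hez hφ
    rw [LinearMap.mem_ker]
    change Submodule.Quotient.mk ((e ≫ φ) ≫ 𝟙 Z) = 0
    rw [Category.comp_id, Submodule.Quotient.mk_eq_zero]
    exact h2
  have hfr : Module.Finite Λ (LinearMap.range Θ) := inferInstance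
  have hq : Module.Finite Λ ((Y ⟶ Z) ⧸ LinearMap.ker Θ) :=
    Module.Finite.equiv Θ.quotKerEquivRange.symm
  have h2 : finrank Λ (LinearMap.range Ψ) ≤ finrank Λ (LinearMap.range Θ) := by
    rw [← Ψ.quotKerEquivRange.finrank_eq, ← Θ.quotKerEquivRange.finrank_eq]
    exact LinearMap.finrank_le_finrank_of_surjective (Submodule.factor_surjective h1)
  exact h2.trans (Submodule.finrank_le _)

/-- **The law and simple summands**: a nonzero element of the simple part `(T ^ m, e)` of rank `r`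
forces `N ≥ r`. -/
theorem simple_law {T : C} [ExactPairing T T] (h : IsPow Λ R T) (F : C ⥤ ModuleCat.{x} Λ)
    [F.Additive] [F.Linear Λ] : ∃ N : ℕ∞,
      HasLaw Λ T (fun n => dimE Λ (F.obj (tp T n))) N ∧
      (N = 0 ↔ ∀ n, Subsingleton (F.obj (tp T n))) ∧
      ∀ (m r : ℕ) (e : tp T m ⟶ tp T m), NumIdem e → IsRk R e r → NumSimple e →
        (∃ z : F.obj (tp T m), z ≠ 0 ∧ (F.map e).hom z = z) → (r : ℕ∞) ≤ N := by
  obtain ⟨N, h1, h2, h3⟩ := law h F
  refine ⟨N, h1, h2, fun m r e he hr hs hz => ?_⟩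
  obtain ⟨z, hz, hez⟩ := hz
  by_cases hN : N = ⊤
  · rw [hN]
    exact le_top
  obtain ⟨h4, -⟩ := h3 hN
  obtain ⟨N', rfl⟩ := ENat.ne_top_iff_exists.1 hN
  have h5 := eventually_nr h he hr (δ := 1 / 2) (by norm_num)
  obtain ⟨n₀, hn₀⟩ := eventually_atTop.1 h5
  have h6 := hn₀ (2 * n₀) (by omega)
  rw [Pool.Agent.N505.AFE2.cmpSeq_even] at h6
  have h7 := nr_le_dim h.real F he hs (h4 m).2.2 hz hez (tp T (2 * n₀)) (h4 (2 * n₀)).1
  have h8 : finrank Λ (F.obj (tp T (2 * n₀))) ≤ N' * numRank Λ (tp T (2 * n₀)) := by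
    exact_mod_cast (h4 n₀).2.1
  have h9 : (0 : ℝ) < numRank Λ (tp T (2 * n₀)) := by
    exact_mod_cast (numRank_mono h (2 * n₀)).1
  have h10 : ((nr Λ e (𝟙 (tp T (2 * n₀))) : ℕ) : ℝ) ≤ N' * numRank Λ (tp T (2 * n₀)) := by
    exact_mod_cast h7.trans h8
  have h11 : ((r : ℝ) - 1 / 2) ≤ N' := by
    have h12 := h6.trans h10
    exact le_of_mul_le_mul_right h12 h9
  have h12 : r ≤ N' := by
    by_contra hcon
    push Not at hcon
    have h13 : (N' : ℝ) + 1 ≤ r := by exact_mod_cast hcon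
    linarith
  exact_mod_cast h12

end Pool.Agent.U724.PH
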