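import Mathlib

/-!
# Growth of sums of binomial coefficients
-/

set_option autoImplicit false

open Filter Topology

namespace Pool.Agent.U724.PH

lemma sum_of_even (n : ℕ) (h : ℕ → ℝ) (hodd : ∀ i, i % 2 = 1 → h i = 0) :
    ∑ i ∈ Finset.range (n + 1), h i = h 0 + ∑ j ∈ Finset.range (n / 2), h (2 * j + 2) := by
  have h1 : ∑ j ∈ Finset.range (n / 2), h (2 * j + 2) =
      ∑ i ∈ (Finset.range (n / 2)).image (fun j => 2 * j + 2), h i := by
    rw [Finset.sum_image]
    intro a _ b _ hab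
    simp only at hab
    omega
  have h2 : (0 : ℕ) ∉ (Finset.range (n / 2)).image (fun j => 2 * j + 2) := by
    rw [Finset.mem_image]
    rintro ⟨j, -, hj⟩
    omega
  rw [h1, ← Finset.sum_insert h2]
  symm
  apply Finset.sum_subset
  · intro i hi
    rw [Finset.mem_insert, Finset.mem_image] at hi
    rw [Finset.mem_range]
    rcases hi with rfl | ⟨j, hj, rfl⟩
    · omega
    · rw [Finset.mem_range] at hj
      omega
  · intro i hi hi'
    rw [Finset.mem_insert, Finset.mem_image, not_or] at hi'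
    rw [Finset.mem_range] at hi
    apply hodd
    by_contra h3
    apply hi'.2
    refine ⟨i / 2 - 1, ?_, ?_⟩
    · rw [Finset.mem_range]
      have := hi'.1
      omega
    · have := hi'.1
      omega

lemma even_part (n : ℕ) (b s : ℝ) :
    ∑ j ∈ Finset.range (n / 2), (n.choose (2 * j + 2) : ℝ) * b ^ (n - (2 * j + 2)) *
      (s ^ 2) ^ (j + 1) = ((b + s) ^ n + (b - s) ^ n) / 2 - b ^ n := by
  set h : ℕ → ℝ := fun i => (s ^ i * b ^ (n - i) * (n.choose i : ℝ) +
    (-s) ^ i * b ^ (n - i) * (n.choose i : ℝ)) / 2 with hh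
  have hodd : ∀ i, i % 2 = 1 → h i = 0 := by
    intro i hi
    have h1 : Odd i := Nat.odd_iff.2 hi
    rw [hh]
    simp only
    rw [h1.neg_pow]
    ring
  have h1 := sum_of_even n h hodd
  have h2 : ∑ i ∈ Finset.range (n + 1), h i = ((b + s) ^ n + (b - s) ^ n) / 2 := by
    have e1 : (b + s) ^ n = ∑ i ∈ Finset.range (n + 1), s ^ i * b ^ (n - i) * (n.choose i : ℝ) := by
      rw [add_comm b s, add_pow]
    have e2 : (b - s) ^ n =
        ∑ i ∈ Finset.range (n + 1), (-s) ^ i * b ^ (n - i) * (n.choose i : ℝ) := by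
      rw [sub_eq_add_neg, add_comm b (-s), add_pow]
    rw [e1, e2, ← Finset.sum_add_distrib, Finset.sum_div]
  have h3 : h 0 = b ^ n := by
    rw [hh]
    simp
  have h4 : ∀ j ∈ Finset.range (n / 2), h (2 * j + 2) =
      (n.choose (2 * j + 2) : ℝ) * b ^ (n - (2 * j + 2)) * (s ^ 2) ^ (j + 1) := by
    intro j _
    have h5 : Even (2 * j + 2) := ⟨j + 1, by ring⟩
    rw [hh]
    simp only
    rw [h5.neg_pow, ← pow_mul]
    have h6 : 2 * (j + 1) = 2 * j + 2 := by ring
    rw [h6]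
    ring
  rw [Finset.sum_congr rfl h4, h2, h3] at h1
  linarith

lemma tendsto_aux (k : ℕ) {q : ℝ} (h0 : 0 ≤ q) (h1 : q < 1) :
    Tendsto (fun n : ℕ => ((n : ℝ) + 1) ^ k * q ^ n) atTop (𝓝 0) := by
  have h2 := tendsto_pow_const_mul_const_pow_of_abs_lt_one k (r := q) (by rwa [abs_of_nonneg h0])
  have h3 : Tendsto (fun n : ℕ => (2 : ℝ) ^ k * ((n : ℝ) ^ k * q ^ n)) atTop (𝓝 0) := by
    simpa using h2.const_mul ((2 : ℝ) ^ k)
  refine squeeze_zero' (Eventually.of_forall fun n => by positivity) ?_ h3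
  filter_upwards [eventually_ge_atTop 1] with n hn
  have h4 : (n : ℝ) + 1 ≤ 2 * n := by
    have : (1 : ℝ) ≤ n := by exact_mod_cast hn
    linarith
  have h5 : ((n : ℝ) + 1) ^ k ≤ (2 * n) ^ k := pow_le_pow_left₀ (by positivity) h4 k
  rw [← mul_assoc, ← mul_pow]
  exact mul_le_mul_of_nonneg_right h5 (pow_nonneg h0 n)

/-- The growth of the lower bound. -/
theorem eventually_le (b : ℝ) (hb : 0 < b) (k : ℕ) {A : ℝ} (hA : 0 ≤ A) {s : ℝ} (hs : 0 < s)
    {c : ℝ} (hc : 0 ≤ c) (hcb : c < b + s) :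
    ∀ᶠ n : ℕ in atTop, A * ((n : ℝ) + 1) ^ k * c ^ n ≤
      ((b + s) ^ n + (b - s) ^ n) / 2 - b ^ n := by
  have hr : 0 < b + s := by linarith
  have t1 := (tendsto_aux k (q := c / (b + s)) (by positivity)
    ((div_lt_one hr).2 hcb)).const_mul A
  have t2 := tendsto_aux 0 (q := b / (b + s)) (by positivity)
    ((div_lt_one hr).2 (by linarith))
  have t3 := tendsto_aux 0 (q := |b - s| / (b + s)) (by positivity)
    ((div_lt_one hr).2 (by rw [abs_lt]; constructor <;> linarith))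
  have t4 := (t1.add t2).add t3
  simp only [mul_zero, add_zero, pow_zero, one_mul] at t4
  have t5 := t4.eventually_le_const (show (0 : ℝ) < 1 / 4 by norm_num)
  filter_upwards [t5] with n hn
  have hrn : 0 < (b + s) ^ n := by positivity
  rw [div_pow, div_pow, div_pow] at hn
  have h1 : A * ((n : ℝ) + 1) ^ k * c ^ n + b ^ n + |b - s| ^ n ≤ 1 / 4 * (b + s) ^ n := by
    have h2 : A * (((n : ℝ) + 1) ^ k * (c ^ n / (b + s) ^ n)) + b ^ n / (b + s) ^ n +
        |b - s| ^ n / (b + s) ^ n =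
        (A * ((n : ℝ) + 1) ^ k * c ^ n + b ^ n + |b - s| ^ n) / (b + s) ^ n := by
      field_simp
    rw [h2, div_le_iff₀ hrn] at hn
    exact hn
  have h3 : -|b - s| ^ n ≤ (b - s) ^ n := by
    rw [← abs_pow]
    exact neg_abs_le _
  have h4 : 0 ≤ |b - s| ^ n := by positivity
  linarith

end Pool.Agent.U724.PH
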