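import Pool.Agent.U724.PH.Main
import Pool.Agent.U724.PH.Real

/-!
# The exponential gap
-/

set_option autoImplicit false
set_option linter.unusedSectionVars false

open CategoryTheory Limits MonoidalCategory Module Filter Topology
open Pool.Agent.Y112.SR Pool.Agent.Y112.KD Pool.Agent.N64.AF Pool.Agent.U724.NT
open Pool.Agent.U724.BL
open scoped ENNReal

namespace Pool.Agent.U724.PH

universe v u w t x

variable {C : Type u} [Category.{v} C] [Preadditive C] [MonoidalCategory C]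
  [MonoidalPreadditive C] [SymmetricCategory C] [RightRigidCategory C]
  {Λ : Type t} [Field Λ] [CharZero Λ] [Linear Λ C] [MonoidalLinear Λ C]
  {K : Type w} [Field K] [IsAlgClosed K] [Algebra Λ K] {R : SuperRealisation C K}

/-- The numerical ranks are nearly as large as possible. -/
theorem rank_lower {T : C} [ExactPairing T T] (h : IsPow Λ R T) (k : ℕ) :
    bt R T ^ k ≤ bt R T * (k + 1) ^ (bt R T ^ 2) * numRank Λ (tp T k) := by
  have hb := bt_pos h
  obtain ⟨p, hp | hp⟩ := Nat.even_or_odd' k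
  · have h1 := growth (Λ := Λ) h.real h.cplus p
    rw [nr_tp h.real, ← pow_mul] at h1
    have h2 : p + p = k := by omega
    rw [h2] at h1
    rw [hp]
    refine h1.trans ?_
    rw [hp]
    have h3 : (p + 1) ^ (bt R T ^ 2) ≤ (2 * p + 1) ^ (bt R T ^ 2) :=
      Nat.pow_le_pow_left (by omega) _
    refine Nat.mul_le_mul_right _ ?_
    calc (p + 1) ^ (bt R T ^ 2) ≤ (2 * p + 1) ^ (bt R T ^ 2) := h3
      _ = 1 * (2 * p + 1) ^ (bt R T ^ 2) := (one_mul _).symm
      _ ≤ _ := Nat.mul_le_mul_right _ hb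
  · have h1 := growth (Λ := Λ) h.real h.cplus p
    rw [nr_tp h.real, ← pow_mul] at h1
    have h2 : p + p = 2 * p := by omega
    rw [h2] at h1
    have h4 := (numRank_mono h (2 * p)).2.1
    rw [hp, pow_succ']
    rw [mul_assoc]
    refine Nat.mul_le_mul_left _ (h1.trans ?_)
    refine Nat.mul_le_mul (Nat.pow_le_pow_left (by omega) _) h4

theorem lowB_ge {T : C} [ExactPairing T T] (h : IsPow Λ R T) (n : ℕ) :
    (((bt R T : ℝ) + √3) ^ n + ((bt R T : ℝ) - √3) ^ n) / 2 - (bt R T : ℝ) ^ n ≤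
      3 * (bt R T : ℝ) * ((n : ℝ) + 1) ^ (bt R T ^ 2) *
        (lowB (fun k => numRank Λ (tp T k)) n : ℕ) := by
  rw [← even_part]
  unfold lowB
  push_cast
  rw [Finset.mul_sum]
  refine Finset.sum_le_sum fun j hj => ?_
  rw [Finset.mem_range] at hj
  set k := n - (2 * j + 2) with hk
  have h1 := rank_lower h k
  have h2 : ((bt R T : ℝ)) ^ k ≤ (bt R T : ℝ) * ((n : ℝ) + 1) ^ (bt R T ^ 2) *
      (numRank Λ (tp T k) : ℝ) := by
    have h3 : ((bt R T : ℝ)) ^ k ≤ (bt R T : ℝ) * ((k : ℝ) + 1) ^ (bt R T ^ 2) *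
        (numRank Λ (tp T k) : ℝ) := by exact_mod_cast h1
    refine h3.trans ?_
    have h4 : (k : ℝ) + 1 ≤ (n : ℝ) + 1 := by
      have : k ≤ n := by omega
      have : (k : ℝ) ≤ n := by exact_mod_cast this
      linarith
    gcongr
  have h5 : (√3 ^ 2 : ℝ) = 3 := Real.sq_sqrt (by norm_num)
  rw [h5, pow_succ]
  calc (n.choose (2 * j + 2) : ℝ) * (bt R T : ℝ) ^ k * (3 ^ j * 3)
      = ((n.choose (2 * j + 2) : ℝ) * (3 ^ j * 3)) * (bt R T : ℝ) ^ k := by ring
    _ ≤ ((n.choose (2 * j + 2) : ℝ) * (3 ^ j * 3)) *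
        ((bt R T : ℝ) * ((n : ℝ) + 1) ^ (bt R T ^ 2) * (numRank Λ (tp T k) : ℝ)) := by
      gcongr
    _ = _ := by ring

/-- **The exponential gap.** -/
theorem phantom_growth {T A P : C} [ExactPairing T T] (h : IsPow Λ R T) [ExactPairing P P]
    (hs : SymPair P) (hT : IsSum T A P) (hP : R.H.map (𝟙 P) = 0) (hne : 𝟙 P ≠ 0) {c : ℝ}
    (hc : 0 ≤ c) (hcb : c < bt R T + √3) : ∀ᶠ n : ℕ in atTop, ENNReal.ofReal (c ^ n) ≤
      ((dimE Λ (homSub h.real (𝟙_ C) (tp T n)) : ℕ∞) : ℝ≥0∞) := by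
  have hb : (0 : ℝ) < bt R T := by exact_mod_cast bt_pos h
  have h1 := eventually_le (bt R T : ℝ) hb (bt R T ^ 2) (A := 3 * (bt R T : ℝ)) (by positivity)
    (s := √3) (by positivity) hc hcb
  filter_upwards [h1] with n hn
  have h2 := hn.trans (lowB_ge h n)
  have h3 : 0 < 3 * (bt R T : ℝ) * ((n : ℝ) + 1) ^ (bt R T ^ 2) := by positivity
  have h4 := le_of_mul_le_mul_left h2 h3
  have h5 : ENNReal.ofReal (c ^ n) ≤
      ((lowB (fun k => numRank Λ (tp T k)) n : ℕ) : ℝ≥0∞) := by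
    rw [← ENNReal.ofReal_natCast]
    exact ENNReal.ofReal_le_ofReal h4
  refine h5.trans ?_
  have h6 := lowB_le h.real hs hT hP hne n
  exact_mod_cast h6

end Pool.Agent.U724.PH
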