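import Pool.Agent.N64.AF.M6

/-!
# Direct sums and symmetric self-dual objects: definitions
-/

set_option autoImplicit false

open CategoryTheory MonoidalCategory

namespace Pool.Agent.U724.PH

universe v u

/-- `T` is the direct sum of `A` and `P`. -/
def IsSum {C : Type u} [Category.{v} C] [Preadditive C] (T A P : C) : Prop :=
  ∃ (iA : A ⟶ T) (rA : T ⟶ A) (iP : P ⟶ T) (rP : T ⟶ P),
    iA ≫ rA = 𝟙 A ∧ iP ≫ rP = 𝟙 P ∧ iA ≫ rP = 0 ∧ iP ≫ rA = 0 ∧ rA ≫ iA + rP ≫ iP = 𝟙 T

/-- The pairing of the self-dual object `P` with itself is symmetric. -/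
structure SymPair {C : Type u} [Category.{v} C] [MonoidalCategory C] [SymmetricCategory C]
    (P : C) [ExactPairing P P] : Prop where
  coev : η_ P P ≫ (β_ P P).hom = η_ P P
  ev : (β_ P P).hom ≫ ε_ P P = ε_ P P

end Pool.Agent.U724.PH
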