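import Pool.Agent.U724.PH.Gen

/-!
# Lower bounds for endomorphism algebras
-/

set_option autoImplicit false
set_option linter.unusedSectionVars false

open CategoryTheory Limits MonoidalCategory Module Opposite
open Pool.Agent.Y112.SR Pool.Agent.Y112.KD Pool.Agent.N64.AF Pool.Agent.U724.NT
open Pool.Agent.U724.BL
open Pool.Agent.Y116.MT (tr)

namespace Pool.Agent.U724.PH

universe v u w t x

variable {C : Type u} [Category.{v} C] [Preadditive C] [MonoidalCategory C]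
  [MonoidalPreadditive C] [SymmetricCategory C] [RightRigidCategory C]

lemma whisker_zero {X Y Z : C} {u : X ⟶ X} (h : u ▷ Y = 0) : (u ▷ Z) ▷ Y = 0 := by
  have h1 : u ▷ (Y ⊗ Z) = 0 := by
    rw [whiskerRight_tensor, h, MonoidalPreadditive.zero_whiskerRight, zero_comp, comp_zero]
  have h2 : u ▷ (Z ⊗ Y) = 0 := by
    have h3 : u ▷ (Z ⊗ Y) ≫ X ◁ (β_ Z Y).hom = X ◁ (β_ Z Y).hom ≫ u ▷ (Y ⊗ Z) :=
      (whisker_exchange _ _).symm
    have h4 : u ▷ (Z ⊗ Y) = (u ▷ (Z ⊗ Y) ≫ X ◁ (β_ Z Y).hom) ≫ X ◁ (β_ Z Y).inv := by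
      rw [Category.assoc, ← MonoidalCategory.whiskerLeft_comp, Iso.hom_inv_id,
        MonoidalCategory.whiskerLeft_id, Category.comp_id]
    rw [h4, h3, h1, comp_zero, zero_comp]
  have h5 : (u ▷ Z) ▷ Y = (α_ X Z Y).hom ≫ u ▷ (Z ⊗ Y) ≫ (α_ X Z Y).inv := by
    rw [whiskerRight_tensor]
    simp
  rw [h5, h2, zero_comp, comp_zero]

lemma tr_whisker {X Y : C} {u : X ⟶ X} (h : u ▷ Y = 0) : tr u ▷ Y = 0 := by
  unfold Pool.Agent.Y116.MT.tr
  rw [comp_whiskerRight, comp_whiskerRight, whisker_zero h, zero_comp, comp_zero]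

lemma zero_of_double {W P : C} (h : 𝟙 ((W ⊗ P) ⊗ P) = 0) : 𝟙 (W ⊗ P) = 0 := by
  have h1 : 𝟙 (W ⊗ ((P ⊗ Pᘁ) ⊗ P)) = 0 := by
    let i : W ⊗ ((P ⊗ Pᘁ) ⊗ P) ≅ ((W ⊗ P) ⊗ P) ⊗ Pᘁ :=
      whiskerLeftIso W (α_ P Pᘁ P ≪≫ whiskerLeftIso P (β_ Pᘁ P) ≪≫ (α_ P P Pᘁ).symm) ≪≫
        (α_ W (P ⊗ P) Pᘁ).symm ≪≫ whiskerRightIso (α_ W P P).symm Pᘁ
    have h2 : 𝟙 (((W ⊗ P) ⊗ P) ⊗ Pᘁ) = 0 := by
      rw [← id_whiskerRight, h, MonoidalPreadditive.zero_whiskerRight]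
    rw [← i.hom_inv_id, ← Category.comp_id i.hom, h2, comp_zero, zero_comp]
  have h2 := ExactPairing.evaluation_coevaluation P Pᘁ
  have h3 : 𝟙 P = ((λ_ P).inv ≫ η_ P Pᘁ ▷ P) ≫ 𝟙 _ ≫ (α_ P Pᘁ P).hom ≫ P ◁ ε_ P Pᘁ ≫
      (ρ_ P).hom := by
    rw [Category.id_comp, Category.assoc, reassoc_of% h2]
    simp
  rw [← MonoidalCategory.whiskerLeft_id, h3, MonoidalCategory.whiskerLeft_comp,
    MonoidalCategory.whiskerLeft_comp W (𝟙 ((P ⊗ Pᘁ) ⊗ P)), MonoidalCategory.whiskerLeft_id, h1,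
    zero_comp, comp_zero]

lemma tp_ne {P : C} (hne : 𝟙 P ≠ 0) (j : ℕ) : 𝟙 (tp P (j + 1)) ≠ 0 := by
  induction j with
  | zero =>
    intro h
    apply hne
    have h1 : 𝟙 P = (λ_ P).inv ≫ 𝟙 (tp P 1) ≫ (λ_ P).hom := by
      rw [Category.id_comp, Iso.inv_hom_id]
    rw [h1, h, zero_comp, comp_zero]
  | succ j ih => exact fun h => ih (zero_of_double (W := tp P j) h)

variable {Λ : Type t} [Field Λ] [CharZero Λ] [Linear Λ C] [MonoidalLinear Λ C]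
  {K : Type w} [Field K] [IsAlgClosed K] [Algebra Λ K] {R : SuperRealisation C K}

lemma numTriv_of_whisker (hR : IsReal Λ R) {X Y : C} (hY : 𝟙 Y ≠ 0) {u : X ⟶ X}
    (h : u ▷ Y = 0) : NumTriv u := by
  intro g
  have h1 : (u ≫ g) ▷ Y = 0 := by rw [comp_whiskerRight, h, zero_comp]
  have h2 := tr_whisker h1
  obtain ⟨q, hq⟩ := hR.unit (tr (u ≫ g))
  rw [hq, MonoidalLinear.smul_whiskerRight, id_whiskerRight] at h2
  rw [hq]
  rcases smul_eq_zero.1 h2 with h3 | h3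
  · rw [h3, zero_smul]
  · exfalso
    apply hY
    rw [← (λ_ Y).inv_hom_id, ← Category.comp_id (λ_ Y).inv, h3, comp_zero, zero_comp]

/-- The endomorphisms of a tensor product. -/
theorem nr_le_end (hR : IsReal Λ R) (X : C) {Y : C} (hY : 𝟙 Y ≠ 0) :
    (nr Λ (𝟙 X) (𝟙 X) : ℕ∞) ≤ dimE Λ (X ⊗ Y ⟶ X ⊗ Y) := by
  have hfin : Module.Finite Λ ((X ⟶ X) ⧸ numIdeal Λ X X) := finite_num hR X X
  let φ : (X ⟶ X) →ₗ[Λ] (X ⊗ Y ⟶ X ⊗ Y) :=
    { toFun := fun u => u ▷ Y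
      map_add' := fun a b => MonoidalPreadditive.add_whiskerRight _ _
      map_smul' := fun c a => MonoidalLinear.smul_whiskerRight _ _ _ }
  have h1 : LinearMap.ker φ ≤ numIdeal Λ X X := fun u hu => numTriv_of_whisker hR hY hu
  have h2 : (nr Λ (𝟙 X) (𝟙 X) : ℕ∞) ≤ dimE Λ ((X ⟶ X) ⧸ numIdeal Λ X X) := by
    rw [dimE_eq]
    exact_mod_cast Submodule.finrank_le _
  refine h2.trans ?_
  have h3 : dimE Λ ((X ⟶ X) ⧸ numIdeal Λ X X) ≤ dimE Λ ((X ⟶ X) ⧸ LinearMap.ker φ) :=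
    Cardinal.toENat.monotone' (LinearMap.rank_le_of_surjective
      (Submodule.factor h1) (Submodule.factor_surjective h1))
  refine h3.trans ?_
  have h4 : dimE Λ ((X ⟶ X) ⧸ LinearMap.ker φ) = dimE Λ (LinearMap.range φ) :=
    dimE_congr φ.quotKerEquivRange
  rw [h4]
  exact dimE_le_of_inj (LinearMap.range φ).subtype (LinearMap.range φ).injective_subtype

lemma homSub_top (hR : IsReal Λ R) {Y Z : C} (h : R.H.map (𝟙 Z) = 0) :
    homSub hR Y Z = (⊤ : Submodule Λ (Y ⟶ Z)) := by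
  rw [eq_top_iff]
  exact fun f _ => map_zero_of h f

/-- **The endomorphisms of the powers of an object with a phantom summand.** -/
theorem end_lower (hR : IsReal Λ R) {U A P : C} (h : IsSum U A P) (hP : R.H.map (𝟙 P) = 0)
    (hne : 𝟙 P ≠ 0) (n : ℕ) :
    (∑ j ∈ Finset.range n, (n.choose (j + 1)) ^ 2 *
      nr Λ (𝟙 (tp A (n - (j + 1)))) (𝟙 (tp A (n - (j + 1)))) : ℕ) ≤
      dimE Λ (homSub hR (tp U n) (tp U n)) := by
  have h1 : dimE Λ (homSub hR (tp U n) (tp U n)) = ∑ i ∈ Finset.range (n + 1),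
      (n.choose i : ℕ∞) * dimE Λ (homSub hR (tp U n) (tp A (n - i) ⊗ tp P i)) :=
    (addDim_target hR (tp U n)).tp h n
  rw [h1, Finset.sum_range_succ']
  refine le_trans ?_ le_self_add
  push_cast
  refine Finset.sum_le_sum fun j hj => ?_
  rw [Finset.mem_range] at hj
  have h2 : dimE Λ (homSub hR (tp U n) (tp A (n - (j + 1)) ⊗ tp P (j + 1))) =
      ∑ i ∈ Finset.range (n + 1), (n.choose i : ℕ∞) * dimE Λ (homSub hR (tp A (n - i) ⊗ tp P i)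
        (tp A (n - (j + 1)) ⊗ tp P (j + 1))) :=
    (addDim_source hR (tp A (n - (j + 1)) ⊗ tp P (j + 1))).tp h n
  rw [h2]
  have h3 := Finset.single_le_sum (f := fun i => (n.choose i : ℕ∞) *
    dimE Λ (homSub hR (tp A (n - i) ⊗ tp P i) (tp A (n - (j + 1)) ⊗ tp P (j + 1))))
    (fun _ _ => zero_le) (Finset.mem_range.2 (show j + 1 < n + 1 by omega))
  rw [sq, mul_assoc]
  gcongr
  refine le_trans ?_ h3
  gcongr
  rw [homSub_top hR (id_tensor_zero (id_tp_zero hP j) _)]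
  refine (nr_le_end hR _ (tp_ne hne j)).trans (le_of_eq ?_)
  exact (dimE_congr Submodule.topEquiv).symm

end Pool.Agent.U724.PH
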