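import Pool.Agent.U724.PH.Main

/-!
# Additive dimension functions; morphisms between the powers of a direct sum
-/

set_option autoImplicit false
set_option linter.unusedSectionVars false

open CategoryTheory Limits MonoidalCategory Module Opposite
open Pool.Agent.Y112.SR Pool.Agent.Y112.KD Pool.Agent.N64.AF Pool.Agent.U724.NT
open Pool.Agent.U724.BL
open Pool.Agent.Y116.MT (tr)

namespace Pool.Agent.U724.PH

universe v u w t x

section Gen

variable {C : Type u} [Category.{v} C] [Preadditive C]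

/-- A function on the objects which is additive in direct sums. -/
structure AddDim (d : C → ℕ∞) : Prop where
  iso : ∀ {Y Z : C}, (Y ≅ Z) → d Y = d Z
  sum : ∀ {T A P : C}, IsSum T A P → d T = d A + d P

variable [MonoidalCategory C] [MonoidalPreadditive C] [SymmetricCategory C] {d : C → ℕ∞}

lemma AddDim.step (hd : AddDim d) {T A P : C} (h : IsSum T A P) (n a j : ℕ) :
    d (tp T (n + 1) ⊗ (tp A a ⊗ tp P j)) =
      d (tp T n ⊗ (tp A (a + 1) ⊗ tp P j)) + d (tp T n ⊗ (tp A a ⊗ tp P (j + 1))) := by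
  have h1 := hd.sum (isSum_tensor h (tp T n) (tp A a ⊗ tp P j))
  have e0 : d (tp T (n + 1) ⊗ (tp A a ⊗ tp P j)) =
      d (tp T n ⊗ (T ⊗ (tp A a ⊗ tp P j))) := hd.iso (α_ _ _ _)
  have e1 : d (tp T n ⊗ (A ⊗ (tp A a ⊗ tp P j))) = d (tp T n ⊗ (tp A (a + 1) ⊗ tp P j)) :=
    hd.iso (whiskerLeftIso (tp T n) ((α_ _ _ _).symm ≪≫ whiskerRightIso (β_ _ _) _))
  have e2 : d (tp T n ⊗ (P ⊗ (tp A a ⊗ tp P j))) = d (tp T n ⊗ (tp A a ⊗ tp P (j + 1))) :=
    hd.iso (whiskerLeftIso (tp T n) (β_ _ _ ≪≫ α_ _ _ _))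
  rw [e0, h1, e1, e2]

lemma AddDim.pow (hd : AddDim d) {T A P : C} (h : IsSum T A P) (n : ℕ) : ∀ a j : ℕ,
    d (tp T n ⊗ (tp A a ⊗ tp P j)) = ∑ i ∈ Finset.range (n + 1), (n.choose i : ℕ∞) *
      d (tp A (a + (n - i)) ⊗ tp P (j + i)) := by
  induction n with
  | zero =>
    intro a j
    rw [Finset.sum_range_one, Nat.choose_self, Nat.cast_one, one_mul]
    exact hd.iso (λ_ _)
  | succ n ih =>
    intro a j
    rw [hd.step h, ih, ih, pascal]
    congr 1
    · refine Finset.sum_congr rfl fun i hi => ?_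
      rw [Finset.mem_range] at hi
      have : a + 1 + (n - i) = a + (n + 1 - i) := by omega
      rw [this]
    · refine Finset.sum_congr rfl fun i hi => ?_
      have h1 : n - i = n + 1 - (i + 1) := by omega
      have h2 : j + 1 + i = j + (i + 1) := by omega
      rw [h1, h2]

theorem AddDim.tp (hd : AddDim d) {T A P : C} (h : IsSum T A P) (n : ℕ) :
    d (tp T n) = ∑ i ∈ Finset.range (n + 1), (n.choose i : ℕ∞) * d (tp A (n - i) ⊗ tp P i) := by
  have h1 := hd.pow h n 0 0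
  have e0 : d (Pool.Agent.Y112.KD.tp T n ⊗ (Pool.Agent.Y112.KD.tp A 0 ⊗
      Pool.Agent.Y112.KD.tp P 0)) = d (Pool.Agent.Y112.KD.tp T n) :=
    hd.iso (whiskerLeftIso (Pool.Agent.Y112.KD.tp T n) (λ_ (𝟙_ C)) ≪≫ ρ_ _)
  rw [e0] at h1
  rw [h1]
  refine Finset.sum_congr rfl fun i hi => ?_
  rw [Nat.zero_add, Nat.zero_add]

end Gen

variable {C : Type u} [Category.{v} C] [Preadditive C] [MonoidalCategory C]
  [MonoidalPreadditive C] [SymmetricCategory C] [RightRigidCategory C]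
  {Λ : Type t} [Field Λ] [CharZero Λ] [Linear Λ C] [MonoidalLinear Λ C]
  {K : Type w} [Field K] [IsAlgClosed K] [Algebra Λ K] {R : SuperRealisation C K}

lemma isSum_op {T A P : C} (h : IsSum T A P) : IsSum (op T) (op A) (op P) := by
  obtain ⟨iA, rA, iP, rP, h1, h2, h3, h4, h5⟩ := h
  refine ⟨rA.op, iA.op, rP.op, iP.op, ?_, ?_, ?_, ?_, ?_⟩
  · rw [← op_comp, h1]
    rfl
  · rw [← op_comp, h2]
    rfl
  · rw [← op_comp, h4]
    rfl
  · rw [← op_comp, h3]
    rfl
  · rw [← op_comp, ← op_comp, ← op_add, h5]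
    rfl

lemma target_stab (hR : IsReal Λ R) (Y : C) : IsStab (homF Λ Y) (fun Z => homSub hR Y Z) := by
  intro Z W f a ha
  have h : R.H.map (a : Y ⟶ Z) = 0 := ha
  change R.H.map ((a : Y ⟶ Z) ≫ f) = 0
  rw [Functor.map_comp, h, zero_comp]

lemma source_stab (hR : IsReal Λ R) (Z : C) :
    IsStab ((linearYoneda Λ C).obj Z) (fun Y : Cᵒᵖ => homSub hR Y.unop Z) := by
  intro Y W f a ha
  have h : R.H.map (a : Y.unop ⟶ Z) = 0 := ha
  change R.H.map (f.unop ≫ (a : Y.unop ⟶ Z)) = 0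
  rw [Functor.map_comp, h, comp_zero]

lemma addDim_target (hR : IsReal Λ R) (Y : C) : AddDim (fun Z => dimE Λ (homSub hR Y Z)) where
  iso i := dim_iso (sub (homF Λ Y) _ (target_stab hR Y)) i
  sum h := h.dim (sub (homF Λ Y) _ (target_stab hR Y))

lemma addDim_source (hR : IsReal Λ R) (Z : C) : AddDim (fun Y => dimE Λ (homSub hR Y Z)) where
  iso {Y W} i := (dimE_congr ((sub ((linearYoneda Λ C).obj Z) _
    (source_stab hR Z)).mapIso i.symm.op).toLinearEquiv : _)
  sum h := (isSum_op h).dim (sub ((linearYoneda Λ C).obj Z) _ (source_stab hR Z))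

end Pool.Agent.U724.PH
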