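import Pool.Agent.U724.PH.EndB
import Pool.Agent.N64.AF.K2

/-!
# Homologically trivial idempotents
-/

set_option autoImplicit false
set_option linter.unusedSectionVars false

open CategoryTheory Limits MonoidalCategory Module Opposite
open Pool.Agent.Y112.SR Pool.Agent.Y112.KD Pool.Agent.N64.AF Pool.Agent.U724.NT
open Pool.Agent.U724.BL

namespace Pool.Agent.U724.PH

universe v u w t x

variable {C : Type u} [Category.{v} C] [Preadditive C] [MonoidalCategory C]
  [MonoidalPreadditive C] [SymmetricCategory C] [RightRigidCategory C]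
  {Λ : Type t} [Field Λ] [CharZero Λ] [Linear Λ C] [MonoidalLinear Λ C]
  {K : Type w} [Field K] [IsAlgClosed K] [Algebra Λ K] {R : SuperRealisation C K}

/-- The action of the endomorphisms on the homologically trivial ones. -/
def rhoV (hR : IsReal Λ R) (Y : C) : End Y →ₐ[Λ] Module.End Λ (homSub hR Y Y) where
  toFun x :=
    { toFun := fun v => ⟨v.1 ≫ (x : Y ⟶ Y), by
        change R.H.map (v.1 ≫ (x : Y ⟶ Y)) = 0
        rw [R.H.map_comp, show R.H.map v.1 = 0 from v.2, zero_comp]⟩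
      map_add' := fun a b => Subtype.ext (Preadditive.add_comp _ _ _ _ _ _)
      map_smul' := fun c a => Subtype.ext (Linear.smul_comp _ _ _ _ _ _) }
  map_one' := LinearMap.ext fun v => Subtype.ext (Category.comp_id _)
  map_mul' a b := LinearMap.ext fun v => Subtype.ext (by
    change v.1 ≫ ((a * b : End Y) : Y ⟶ Y) = (v.1 ≫ (b : Y ⟶ Y)) ≫ (a : Y ⟶ Y)
    rw [End.mul_def, Category.assoc])
  map_zero' := LinearMap.ext fun v => Subtype.ext comp_zero
  map_add' a b := LinearMap.ext fun v => Subtype.ext (Preadditive.comp_add _ _ _ _ _ _)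
  commutes' c := LinearMap.ext fun v => Subtype.ext (by
    change v.1 ≫ ((algebraMap Λ (End Y) c : End Y) : Y ⟶ Y) = c • v.1
    rw [Algebra.algebraMap_eq_smul_one]
    change v.1 ≫ (c • 𝟙 Y) = c • v.1
    rw [Linear.comp_smul, Category.comp_id])

/-- A homologically trivial idempotent from a homologically trivial endomorphism which is not
nilpotent. -/
theorem exists_idem (hR : IsReal Λ R) {Y : C} (hfin : Module.Finite Λ (homSub hR Y Y))
    {y : End Y} (hy : R.H.map (y : Y ⟶ Y) = 0) (hn : ¬ IsNilpotent y) :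
    ∃ e : Y ⟶ Y, e ≫ e = e ∧ R.H.map e = 0 ∧ e ≠ 0 := by
  obtain ⟨q, hq1, hq2⟩ := Pool.Agent.N8.AFBb.exists_fit (rhoV hR Y y)
  set e₀ : End Y := Polynomial.aeval y q * y with he₀
  have hE : Polynomial.aeval (rhoV hR Y y) q * rhoV hR Y y = rhoV hR Y e₀ := by
    rw [he₀, map_mul, Polynomial.aeval_algHom_apply]
  rw [hE] at hq1 hq2
  have hR0 : R.H.map (e₀ : Y ⟶ Y) = 0 := by
    rw [he₀, End.mul_def]
    change R.H.map ((y : Y ⟶ Y) ≫ _) = 0
    rw [R.H.map_comp, hy, zero_comp]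
  have hcube : (e₀ : Y ⟶ Y) ≫ (e₀ : Y ⟶ Y) ≫ (e₀ : Y ⟶ Y) = (e₀ : Y ⟶ Y) ≫ (e₀ : Y ⟶ Y) := by
    have h1 := LinearMap.congr_fun hq1 ⟨e₀, hR0⟩
    have h2 := congrArg Subtype.val h1
    change ((e₀ : Y ⟶ Y) ≫ (e₀ : Y ⟶ Y)) ≫ (e₀ : Y ⟶ Y) = (e₀ : Y ⟶ Y) ≫ (e₀ : Y ⟶ Y) at h2
    rw [← Category.assoc]
    exact h2
  refine ⟨(e₀ : Y ⟶ Y) ≫ (e₀ : Y ⟶ Y), ?_, ?_, ?_⟩
  · rw [Category.assoc, hcube, hcube]
  · rw [R.H.map_comp, hR0, zero_comp]
  · intro h0
    have h1 : rhoV hR Y e₀ = 0 := by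
      rw [← hq1, ← map_mul]
      have h2 : e₀ * e₀ = (0 : End Y) := h0
      rw [h2, map_zero]
    obtain ⟨k, hk⟩ := hq2 h1
    apply hn
    refine ⟨k + 1, ?_⟩
    rw [← map_pow] at hk
    have h2 := LinearMap.congr_fun hk ⟨y, hy⟩
    have h3 := congrArg Subtype.val h2
    change (y : Y ⟶ Y) ≫ ((y ^ k : End Y) : Y ⟶ Y) = 0 at h3
    rw [pow_succ]
    exact h3

/-- The splitting. -/
theorem exists_phantom [IsIdempotentComplete C] (hR : IsReal Λ R) {Y : C}
    (hfin : Module.Finite Λ (homSub hR Y Y)) {y : End Y} (hy : R.H.map (y : Y ⟶ Y) = 0)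
    (hn : ¬ IsNilpotent y) : ∃ A P : C, IsSum Y A P ∧ R.H.map (𝟙 P) = 0 ∧ 𝟙 P ≠ 0 := by
  obtain ⟨e, he, hRe, hne⟩ := exists_idem hR hfin hy hn
  have he' : (𝟙 Y - e) ≫ (𝟙 Y - e) = 𝟙 Y - e := by
    rw [Preadditive.sub_comp, Preadditive.comp_sub, Preadditive.comp_sub, he]
    simp
  obtain ⟨P, i, r, h1, h2⟩ := IsIdempotentComplete.idempotents_split Y e he
  obtain ⟨A, i', r', h3, h4⟩ := IsIdempotentComplete.idempotents_split Y (𝟙 Y - e) he'
  have h5 : i' ≫ e = 0 := by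
    have h6 : i' ≫ (𝟙 Y - e) = i' := by rw [← h4, ← Category.assoc, h3, Category.id_comp]
    rw [Preadditive.comp_sub, Category.comp_id] at h6
    exact sub_eq_self.1 h6
  have h6 : e ≫ r' = 0 := by
    have h7 : (𝟙 Y - e) ≫ r' = r' := by rw [← h4, Category.assoc, h3, Category.comp_id]
    rw [Preadditive.sub_comp, Category.id_comp] at h7
    exact sub_eq_self.1 h7
  refine ⟨A, P, ⟨i', r', i, r, h3, h1, ?_, ?_, ?_⟩, ?_, ?_⟩
  · have h7 : r = e ≫ r := by rw [← h2, Category.assoc, h1, Category.comp_id]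
    rw [h7, ← Category.assoc, h5, zero_comp]
  · have h7 : i = i ≫ e := by rw [← h2, ← Category.assoc, h1, Category.id_comp]
    rw [h7, Category.assoc, h6, comp_zero]
  · rw [h4, h2]
    abel
  · have h7 : 𝟙 P = i ≫ e ≫ r := by
      rw [← h2, Category.assoc, h1, Category.comp_id, h1]
    rw [h7, R.H.map_comp, R.H.map_comp, hRe, zero_comp, comp_zero]
  · intro h0
    apply hne
    rw [← h2, ← Category.comp_id r, h0, comp_zero, zero_comp]

end Pool.Agent.U724.PH
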