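import Pool.Agent.U724.PH.Idem
import Pool.Agent.U724.PH.Bloch
import Pool.Agent.U724.PH.Real2
import Pool.Agent.N64.AF.K1

/-!
# The growth gap for objects which are not finite-dimensional
-/

set_option autoImplicit false
set_option linter.unusedSectionVars false

open CategoryTheory Limits MonoidalCategory Module Opposite Filter Topology
open Pool.Agent.Y112.SR Pool.Agent.Y112.KD Pool.Agent.N64.AF Pool.Agent.U724.NT
open Pool.Agent.U724.BL Pool.Agent.N645.AFK1
open scoped ENNReal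

namespace Pool.Agent.U724.PH

universe v u w t x

variable {C : Type u} [Category.{v} C] [Preadditive C] [MonoidalCategory C]
  [MonoidalPreadditive C] [SymmetricCategory C] [RightRigidCategory C]
  {Λ : Type t} [Field Λ] [CharZero Λ] [Linear Λ C] [MonoidalLinear Λ C]
  {K : Type w} [Field K] [IsAlgClosed K] [Algebra Λ K] {R : SuperRealisation C K}

lemma cur_hom (Q : C) [ExactPairing Q Q] {Y Z : C} (f : Y ⊗ Q ⟶ Z) :
    R.H.map (cur Λ Q Y Z f) = 0 ↔ R.H.map f = 0 := by
  constructor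
  · intro h
    have h1 : f = (cur Λ Q Y Z f ▷ Q) ≫ (α_ _ _ _).hom ≫ (Z ◁ ε_ Q Q) ≫ (ρ_ _).hom :=
      ((cur Λ Q Y Z).symm_apply_apply f).symm
    rw [h1, R.H.map_comp, Functor.Monoidal.map_whiskerRight, h]
    simp
  · intro h
    rw [cur_eq, R.H.map_comp, Functor.Monoidal.map_whiskerRight, h]
    simp

lemma dim_cur (hR : IsReal Λ R) (Q : C) [ExactPairing Q Q] (Y Z : C) :
    dimE Λ (homSub hR (Y ⊗ Q) Z) = dimE Λ (homSub hR Y (Z ⊗ Q)) := by
  have h1 : (homSub hR (Y ⊗ Q) Z).map (cur Λ Q Y Z).toLinearMap = homSub hR Y (Z ⊗ Q) := by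
    ext g
    constructor
    · rintro ⟨f, hf, rfl⟩
      exact (cur_hom (Λ := Λ) Q f).2 hf
    · intro hg
      refine ⟨(cur Λ Q Y Z).symm g, ?_, (cur Λ Q Y Z).apply_symm_apply g⟩
      refine (cur_hom (Λ := Λ) Q _).1 ?_
      rw [LinearEquiv.apply_symm_apply]
      exact hg
  rw [← h1]
  exact dimE_congr ((cur Λ Q Y Z).submoduleMap _)

lemma dim_tp_tp (hR : IsReal Λ R) (T : C) [ExactPairing T T] (a : ℕ) : ∀ b : ℕ,
    dimE Λ (homSub hR (tp T a) (tp T b)) = dimE Λ (homSub hR (𝟙_ C) (tp T (a + b))) := by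
  induction a with
  | zero =>
    intro b
    rw [Nat.zero_add]
  | succ a ih =>
    intro b
    have h1 := dim_cur hR T (tp T a) (tp T b)
    have h2 : a + 1 + b = a + (b + 1) := by omega
    rw [h2, ← ih (b + 1)]
    exact h1

lemma exists_pow_iso (T : C) (M n : ℕ) : Nonempty (tp (tp T M) n ≅ tp T (M * n)) := by
  induction n with
  | zero => exact ⟨Iso.refl _⟩
  | succ n ih =>
    obtain ⟨i⟩ := ih
    obtain ⟨j, -⟩ := exists_tp_iso T (M * n) M
    exact ⟨whiskerRightIso i (tp T M) ≪≫ j⟩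

lemma dim_mono {T : C} (h : IsPow Λ R T) {m n : ℕ} (hmn : m ≤ n) :
    dimE Λ (homSub h.real (𝟙_ C) (tp T m)) ≤ dimE Λ (homSub h.real (𝟙_ C) (tp T n)) := by
  obtain ⟨k, rfl⟩ := Nat.exists_eq_add_of_le hmn
  obtain ⟨i, r, hir⟩ := Pool.Agent.N701.AFE5.retract_le h m k
  have h1 := (mult_of_retract i r hir).dim (cycF h.real)
  rw [Nat.cast_one, one_mul] at h1
  exact h1

lemma bt_of_sum {U A P : C} (h : IsSum U A P) (hP : R.H.map (𝟙 P) = 0) : bt R A = bt R U := by
  have h1 := h.dim R.H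
  have h2 : dimE K (R.H.obj P) = 0 := by
    rw [dimE_zero_iff]
    refine ⟨fun a b => ?_⟩
    have h3 : ∀ a : R.H.obj P, a = 0 := by
      intro a
      have h4 : (R.H.map (𝟙 P)).hom a = a := by
        rw [R.H.map_id]
        rfl
      rw [← h4, hP]
      rfl
    rw [h3 a, h3 b]
  have hU := R.finite U
  have hA := R.finite A
  rw [h2, add_zero, dimE_eq, dimE_eq] at h1
  exact_mod_cast h1.symm

lemma cplus_ret {U A : C} (i : A ⟶ U) (r : U ⟶ A) (h : i ≫ r = 𝟙 A) (hU : R.CPlus U) :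
    R.CPlus A := by
  obtain ⟨f, hf⟩ := hU
  refine ⟨i ≫ f ≫ r, ?_⟩
  have h1 : (2 : K) • R.H.map (i ≫ f ≫ r) = R.H.map i ≫ ((2 : K) • R.H.map f) ≫ R.H.map r := by
    rw [R.H.map_comp, R.H.map_comp, Linear.smul_comp, Linear.comp_smul]
  rw [h1, hf, Preadditive.add_comp, Preadditive.comp_add, Category.id_comp, ← R.H.map_comp, h,
    R.H.map_id, ← R.par_natural, ← Category.assoc, ← R.H.map_comp, h, R.H.map_id,
    Category.id_comp]

/-- **The growth gap**: if some homologically trivial endomorphism of `T ^ M` is not nilpotent then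
the dimension of the space of the homologically trivial cycles on `T ^ n` is at least `c ^ n` for
large `n`, for each `c` with `c ^ M < b ^ M + 1`. -/
theorem gap_of_not_nil [IsIdempotentComplete C] {T : C} [ExactPairing T T] (h : IsPow Λ R T)
    {M : ℕ} (hM : 0 < M) {y : End (tp T M)} (hy : R.H.map (y : tp T M ⟶ tp T M) = 0)
    (hn : ¬ IsNilpotent y) {c : ℝ} (hc : 0 ≤ c) (hcb : c ^ M < (bt R T : ℝ) ^ M + 1) :
    ∀ᶠ n : ℕ in atTop, ENNReal.ofReal (c ^ n) ≤
      ((dimE Λ (homSub h.real (𝟙_ C) (tp T n)) : ℕ∞) : ℝ≥0∞) := by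
  have hb := bt_pos h
  have hbR : (1 : ℝ) ≤ bt R T := by exact_mod_cast hb
  by_cases hfin : Module.Finite Λ (homSub h.real (tp T M) (tp T M))
  swap
  · filter_upwards [eventually_ge_atTop (M + M)] with n hn'
    have h1 := dimE_top hfin
    rw [dim_tp_tp] at h1
    have h2 := dim_mono h hn'
    rw [h1, top_le_iff] at h2
    rw [h2]
    exact le_top
  obtain ⟨A, P, hS, hP, hne⟩ := exists_phantom h.real hfin hy hn
  have hcA : R.CPlus A := by
    obtain ⟨iA, rA, -, -, h1, -⟩ := hS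
    exact cplus_ret iA rA h1 (cplus_tp h.real h.cplus M)
  have hbtA : bt R A = bt R T ^ M := by rw [bt_of_sum hS hP, bt_tp]
  set x : ℝ := (bt R T : ℝ) ^ M with hx
  have hx0 : 0 < x := by positivity
  set β : ℕ → ℕ := fun k => nr Λ (𝟙 (tp A k)) (𝟙 (tp A k)) with hβ
  have hgr : ∀ k : ℕ, (x ^ 2) ^ k ≤ ((k : ℝ) + 1) ^ (bt R A ^ 2) * β k := by
    intro k
    have h1 := growth (Λ := Λ) h.real hcA k
    have h2 : (((bt R A ^ 2) ^ k : ℕ) : ℝ) ≤ (((k + 1) ^ (bt R A ^ 2) * β k : ℕ) : ℝ) := by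
      exact_mod_cast h1
    push_cast at h2
    rw [hbtA] at h2 ⊢
    push_cast at h2
    exact h2
  -- we may assume `c ≥ 1`
  set c' := max c 1 with hc'
  have hc1 : 1 ≤ c' := le_max_right _ _
  have hcb' : c' ^ M < x + 1 := by
    rcases le_total c 1 with h1 | h1
    · rw [hc', max_eq_right h1, one_pow]
      linarith
    · rw [hc', max_eq_left h1]
      exact hcb
  have hev := growth_sq hx0 (bt R A ^ 2) β hgr (A := c' ^ (2 * M)) (by positivity)
    (q := c' ^ M) (by positivity) hcb'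
  obtain ⟨n₀, hn₀⟩ := eventually_atTop.1 hev
  filter_upwards [eventually_ge_atTop (2 * M * n₀)] with n hnn
  have h2M : 0 < 2 * M := by omega
  set m := n / (2 * M) with hm
  have hm0 : n₀ ≤ m := by
    rw [hm, Nat.le_div_iff_mul_le h2M, mul_comm]
    exact hnn
  have h1 := hn₀ m hm0
  have h2 : c ^ n ≤ c' ^ (2 * M) * ((c' ^ M) ^ 2) ^ m := by
    have h3 : c ^ n ≤ c' ^ n := pow_le_pow_left₀ hc (le_max_left _ _) n
    have h4 : c' ^ n ≤ c' ^ (2 * M + 2 * M * m) := by
      apply pow_le_pow_right₀ hc1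
      have h5 := Nat.div_add_mod n (2 * M)
      have h6 := Nat.mod_lt n h2M
      rw [← hm] at h5
      omega
    refine (h3.trans h4).trans (le_of_eq ?_)
    rw [pow_add, ← pow_mul, ← pow_mul]
    congr 2
    ring
  have h3 := h2.trans h1
  have h4 : ∑ j ∈ Finset.range m, (m.choose (j + 1) : ℝ) ^ 2 * (β (m - (j + 1)) : ℝ) =
      ((∑ j ∈ Finset.range m, (m.choose (j + 1)) ^ 2 * β (m - (j + 1)) : ℕ) : ℝ) := by
    push_cast
    rfl
  rw [h4] at h3
  have h5 := ENNReal.ofReal_le_ofReal h3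
  rw [ENNReal.ofReal_natCast] at h5
  refine h5.trans ?_
  have h6 := end_lower h.real hS hP hne m
  obtain ⟨i⟩ := exists_pow_iso T M m
  have h7 : dimE Λ (homSub h.real (tp (tp T M) m) (tp (tp T M) m)) =
      dimE Λ (homSub h.real (tp T (M * m)) (tp T (M * m))) := by
    rw [(addDim_target h.real (tp (tp T M) m)).iso i]
    exact (addDim_source h.real (tp T (M * m))).iso i
  rw [h7, dim_tp_tp] at h6
  have h8 : M * m + M * m ≤ n := by
    have h5 := Nat.div_add_mod n (2 * M)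
    rw [← hm] at h5
    have h10 : 2 * M * m = M * m + M * m := by ring
    omega
  have h9 := ENat.toENNReal_le.2 (h6.trans (dim_mono h h8))
  rw [ENat.toENNReal_coe] at h9
  exact h9

end Pool.Agent.U724.PH
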