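import Pool.Agent.U724.PH.Kim

/-!
# Finite-dimensionality from nilpotence on one power
-/

set_option autoImplicit false
set_option linter.unusedSectionVars false
set_option backward.isDefEq.respectTransparency false
set_option backward.defeqAttrib.useBackward true

open CategoryTheory Limits MonoidalCategory Module Filter Topology
open Pool.Agent.Y112.SR Pool.Agent.Y112.KD
open Pool.Agent.Y116.MT (tr)
open Pool.Agent.R905 Pool.Agent.N64.AF Pool.Agent.N861.AF
open scoped ENNReal

namespace Pool.Agent.U724.PH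

universe v u w t x

section A

variable {C : Type u} [Category.{v} C] [Preadditive C] [Linear ℚ C] [MonoidalCategory C]
  [MonoidalPreadditive C] [MonoidalLinear ℚ C] [SymmetricCategory C]
  [RightRigidCategory C] {K : Type w} [Field K] (R : SuperRealisation C K)
  [IsIdempotentComplete C]

/-- Nilpotence on one power implies the vanishing of the power. -/
lemma asym_zero' (hU : UnitQ C) {E : C} (d : ℚ) (hd : d * d = 1) (hE : R.par E = (d : K) • 𝟙 _)
    (hnil : HomNil R (tp E (finrank K (R.H.obj E) + 1))) : ∃ n, asym (-d) E n = 0 := by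
  refine ⟨finrank K (R.H.obj E) + 1, ?_⟩
  have hη : (-d) * (-d) = 1 := by linear_combination hd
  obtain ⟨k, hk⟩ := hnil (en (asym (-d) E (finrank K (R.H.obj E) + 1)))
    (map_asym_zero R hU d hd hE)
  have h1 : IsIdempotentElem (en (asym (-d) E (finrank K (R.H.obj E) + 1))) := asym_idem hη E _
  have h2 := h1.pow_succ_eq k
  rw [pow_succ, hk, zero_mul] at h2
  exact h2.symm

end A

variable {C : Type u} [Category.{v} C] [Preadditive C] [MonoidalCategory C]
  [MonoidalPreadditive C] [SymmetricCategory C] [RightRigidCategory C]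
  [Linear ℚ C] [MonoidalLinear ℚ C] [IsIdempotentComplete C]
  {K : Type w} [Field K] [IsAlgClosed K] [Algebra ℚ K] {R : SuperRealisation C K}

lemma bt_le {T E : C} (i : E ⟶ T) (r : T ⟶ E) (h : i ≫ r = 𝟙 E) :
    finrank K (R.H.obj E) ≤ finrank K (R.H.obj T) := by
  have hT := R.finite T
  have h1 : ∀ a, (R.H.map r).hom ((R.H.map i).hom a) = a := by
    intro a
    have h2 : R.H.map i ≫ R.H.map r = 𝟙 _ := by rw [← R.H.map_comp, h, R.H.map_id]
    exact congrArg (fun g => g.hom a) h2
  refine LinearMap.finrank_le_finrank_of_injective (f := (R.H.map i).hom) ?_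
  intro a b hab
  rw [← h1 a, ← h1 b, hab]

/-- Kimura finite-dimensionality from nilpotence on the power of order `b + 1`. -/
theorem kimura_of_nil_one {T : C} (h : IsPow ℚ R T) (hnil : HomNil R (tp T (bt R T + 1))) :
    IsKimuraFinite T := by
  have hR := h.real
  have hc := R_charZero R
  have hU : UnitQ C := by
    refine ⟨hR.unit, fun h => ?_⟩
    have h1 := bt_unit R
    have h2 : 𝟙 (R.H.obj (𝟙_ C)) = 0 := by
      rw [← CategoryTheory.Functor.map_id, h, Functor.map_zero]
    have h3 : IsZero (R.H.obj (𝟙_ C)) := (IsZero.iff_id_eq_zero _).2 h2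
    have h4 : Subsingleton (R.H.obj (𝟙_ C)) := ModuleCat.subsingleton_of_isZero h3
    unfold bt at h1
    rw [finrank_zero_of_subsingleton] at h1
    exact zero_ne_one h1
  have hn : ∀ n, n ≤ bt R T + 1 → HomNil R (tp T n) := by
    intro n hn
    obtain ⟨k, hk⟩ := Nat.exists_eq_add_of_le hn
    obtain ⟨i, r, hir⟩ := Pool.Agent.N701.AFE5.retract_le h n k
    have hnil' := hnil
    rw [hk] at hnil'
    exact hnil'.retract i r hir
  have hT1 : HomNil R T := (hn 1 (by omega)).retract (λ_ T).inv (λ_ T).hom (by simp)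
  obtain ⟨E, O, i, r, i', r', h1, h2, h3, hE, hO⟩ := exists_parts R h.cplus hT1
  have key : ∀ (P : C) (i : P ⟶ T) (r : T ⟶ P), i ≫ r = 𝟙 P →
      HomNil R (tp P (finrank K (R.H.obj P) + 1)) := by
    intro P i r hir
    have hle : finrank K (R.H.obj P) + 1 ≤ bt R T + 1 := Nat.succ_le_succ (bt_le i r hir)
    refine (hn _ hle).retract (tpm i _) (tpm r _) ?_
    rw [tpm_comp, hir, tpm_id]
  obtain ⟨n, hn1⟩ := asym_zero' R hU (E := E) 1 (by norm_num) (by rw [hE]; norm_num) (key E i r h1)
  obtain ⟨m, hm⟩ := asym_zero' R hU (E := O) (-1) (by norm_num) (by rw [hO]; norm_num)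
    (key O i' r' h2)
  rw [neg_neg] at hm
  exact (isKimuraFinite_iff T).2 ⟨E, O, i, r, i', r', h1, h2, h3, ⟨n, hn1⟩, m, hm⟩

end Pool.Agent.U724.PH
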