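import Pool.Agent.U724.PH.Three
import Pool.Agent.N64.AF.M6
import Pool.Agent.N64.AF.L1
import Pool.Agent.N64.AF.D2

/-!
# The growth of the homologically trivial cycles when there is a phantom
-/

set_option autoImplicit false
set_option linter.unusedSectionVars false

open CategoryTheory Limits MonoidalCategory Module
open Pool.Agent.Y112.SR Pool.Agent.Y112.KD Pool.Agent.N64.AF Pool.Agent.U724.NT
open Pool.Agent.U724.BL
open Pool.Agent.Y116.MT (tr)

namespace Pool.Agent.U724.PH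

universe v u w t x

variable {C : Type u} [Category.{v} C] [Preadditive C] [MonoidalCategory C]
  [MonoidalPreadditive C] [SymmetricCategory C] [RightRigidCategory C]
  {Λ : Type t} [Field Λ] [CharZero Λ] [Linear Λ C] [MonoidalLinear Λ C]
  {K : Type w} [Field K] [IsAlgClosed K] [Algebra Λ K] {R : SuperRealisation C K}

lemma cyc_stab (hR : IsReal Λ R) : IsStab (homF Λ (𝟙_ C)) (fun Z => homSub hR (𝟙_ C) Z) := by
  intro Y Z f a ha
  have h : R.H.map (a : 𝟙_ C ⟶ Y) = 0 := ha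
  change R.H.map ((a : 𝟙_ C ⟶ Y) ≫ f) = 0
  rw [Functor.map_comp, h, zero_comp]

/-- The functor of the homologically trivial cycles. -/
abbrev cycF (hR : IsReal Λ R) : C ⥤ ModuleCat.{v} Λ :=
  sub (homF Λ (𝟙_ C)) (fun Z => homSub hR (𝟙_ C) Z) (cyc_stab hR)

lemma map_zero_of {P : C} (hP : R.H.map (𝟙 P) = 0) {Z : C} (f : Z ⟶ P) : R.H.map f = 0 := by
  rw [← Category.comp_id f, R.H.map_comp, hP, comp_zero]

lemma id_tp_zero {P : C} (hP : R.H.map (𝟙 P) = 0) (n : ℕ) :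
    R.H.map (𝟙 (tp P (n + 1))) = 0 := by
  have h1 : 𝟙 (tp P (n + 1)) = tp P n ◁ 𝟙 P := (MonoidalCategory.whiskerLeft_id _ _).symm
  rw [h1, Functor.Monoidal.map_whiskerLeft, hP]
  simp

lemma id_tensor_zero {P : C} (hP : R.H.map (𝟙 P) = 0) (Z : C) : R.H.map (𝟙 (Z ⊗ P)) = 0 := by
  have h1 : 𝟙 (Z ⊗ P) = Z ◁ 𝟙 P := (MonoidalCategory.whiskerLeft_id _ _).symm
  rw [h1, Functor.Monoidal.map_whiskerLeft, hP]
  simp

lemma unit_zero (hR : IsReal Λ R) {c : 𝟙_ C ⟶ 𝟙_ C} (hc : R.H.map c = 0) : c = 0 := by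
  obtain ⟨q, rfl⟩ := hR.unit c
  rw [hR.lin, R.H.map_id] at hc
  by_cases hq : q = 0
  · rw [hq, zero_smul]
  · exfalso
    have h4 : finrank K (R.H.obj (𝟙_ C)) = 1 := bt_unit R
    have h5 : 0 < finrank K (R.H.obj (𝟙_ C)) := by omega
    obtain ⟨x, hx⟩ := Module.finrank_pos_iff_exists_ne_zero.1 h5
    have h6 : algebraMap Λ K q • x = 0 := congrArg (fun f => f.hom x) hc
    rcases smul_eq_zero.1 h6 with h | h
    · exact hq ((map_eq_zero _).1 h)
    · exact hx h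

lemma loop_zero (hR : IsReal Λ R) {P : C} [ExactPairing P P] (hP : R.H.map (𝟙 P) = 0) :
    η_ P P ≫ ε_ P P = 0 := by
  apply unit_zero hR
  rw [R.H.map_comp, map_zero_of (id_tensor_zero hP P), zero_comp]

lemma coev_ne {P : C} [ExactPairing P P] (hne : 𝟙 P ≠ 0) : η_ P P ≠ 0 := by
  intro h0
  apply hne
  have h2 := ExactPairing.evaluation_coevaluation P P
  rw [h0, MonoidalPreadditive.zero_whiskerRight, zero_comp] at h2
  have h3 : (λ_ P).inv ≫ ((λ_ P).hom ≫ (ρ_ P).inv) ≫ (ρ_ P).hom = 𝟙 P := by simp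
  rw [← h3, ← h2, zero_comp, comp_zero]

/-- The dimension of the space of the homologically trivial cycles. -/
lemma one_le_two (hR : IsReal Λ R) {P : C} [ExactPairing P P] (hP : R.H.map (𝟙 P) = 0)
    (hne : 𝟙 P ≠ 0) : 1 ≤ dimE Λ ((cycF hR).obj (tp P 2)) := by
  have e : dimE Λ ((cycF hR).obj (tp P 2)) = dimE Λ ((cycF hR).obj (P ⊗ P)) :=
    dim_iso _ (whiskerRightIso (λ_ P) P)
  rw [e, Order.one_le_iff_pos, pos_iff_ne_zero]
  intro h0
  rw [dimE_zero_iff] at h0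
  apply coev_ne hne
  have h1 : R.H.map (η_ P P) = 0 := map_zero_of (id_tensor_zero hP P) _
  have h2 : (⟨η_ P P, h1⟩ : homSub hR (𝟙_ C) (P ⊗ P)) = 0 := @Subsingleton.elim _ h0 _ _
  exact congrArg Subtype.val h2

lemma three_pow_le (hR : IsReal Λ R) {P : C} [ExactPairing P P] (hs : SymPair P)
    (hP : R.H.map (𝟙 P) = 0) (hne : 𝟙 P ≠ 0) (k : ℕ) :
    ((3 ^ k : ℕ) : ℕ∞) ≤ dimE Λ ((cycF hR).obj (tp P (2 * k + 2))) := by
  refine le_trans ?_ ((mult_tp Λ hs (loop_zero hR hP) k).dim (cycF hR))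
  calc ((3 ^ k : ℕ) : ℕ∞) = ((3 ^ k : ℕ) : ℕ∞) * 1 := (mul_one _).symm
    _ ≤ _ := by
      gcongr
      exact one_le_two hR hP hne

/-- The functor of the cycles modulo numerical equivalence. -/
abbrev numQ (hR : IsReal Λ R) : C ⥤ ModuleCat.{v} Λ :=
  quoS (homF Λ (𝟙_ C)) (numS Λ) (num_stab hR)

lemma dim_numQ (hR : IsReal Λ R) (Z : C) :
    dimE Λ ((numQ hR).obj Z) = (numRank Λ Z : ℕ∞) := by
  have h6 : Module.Finite Λ ((𝟙_ C ⟶ Z) ⧸ numIdeal Λ (𝟙_ C) Z) := finite_num hR (𝟙_ C) Z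
  change dimE Λ ((𝟙_ C ⟶ Z) ⧸ numIdeal Λ (𝟙_ C) Z) = _
  rw [dimE_eq]
  rfl

/-- The phantom does not change the numerical ranks. -/
theorem numRank_eq_of_sum (hR : IsReal Λ R) {T A P : C} (h : IsSum T A P)
    (hP : R.H.map (𝟙 P) = 0) (n : ℕ) : numRank Λ (tp T n) = numRank Λ (tp A n) := by
  have h1 := dim_tp h (numQ hR) n
  have h2 : ∀ i ∈ Finset.range (n + 1), i ≠ 0 → (n.choose i : ℕ∞) *
      dimE Λ ((numQ hR).obj (tp A (n - i) ⊗ tp P i)) = 0 := by
    intro i hi h0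
    obtain ⟨i, rfl⟩ := Nat.exists_eq_succ_of_ne_zero h0
    have h3 : dimE Λ ((numQ hR).obj (tp A (n - (i + 1)) ⊗ tp P (i + 1))) = 0 := by
      rw [dimE_zero_iff]
      refine ⟨fun a b => ?_⟩
      have h4 : ∀ a : (𝟙_ C ⟶ tp A (n - (i + 1)) ⊗ tp P (i + 1)) ⧸
          numIdeal Λ (𝟙_ C) (tp A (n - (i + 1)) ⊗ tp P (i + 1)), a = 0 := by
        intro a
        obtain ⟨a, rfl⟩ := Submodule.mkQ_surjective _ a
        rw [Submodule.mkQ_apply, Submodule.Quotient.mk_eq_zero, mem_numIdeal]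
        exact numTriv_of_map hR (map_zero_of (id_tensor_zero (id_tp_zero hP i) _) a)
      exact (h4 a).trans (h4 b).symm
    rw [Nat.succ_eq_add_one, h3, mul_zero]
  rw [Finset.sum_eq_single_of_mem 0 (Finset.mem_range.2 (Nat.succ_pos n))
    (fun i hi h0 => h2 i hi h0), Nat.choose_zero_right, Nat.cast_one, one_mul, Nat.sub_zero,
    dim_numQ] at h1
  have e : dimE Λ ((numQ hR).obj (tp A n ⊗ tp P 0)) = (numRank Λ (tp A n) : ℕ∞) := by
    rw [← dim_numQ hR]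
    exact dim_iso _ (ρ_ (tp A n))
  rw [e] at h1
  exact_mod_cast h1

/-- The lower bound: the number of the products of numerically independent cycles and graphs. -/
def lowB (ρ : ℕ → ℕ) (n : ℕ) : ℕ :=
  ∑ j ∈ Finset.range (n / 2), n.choose (2 * j + 2) * ρ (n - (2 * j + 2)) * 3 ^ j

lemma sum_even_le (n : ℕ) (g : ℕ → ℕ∞) :
    ∑ j ∈ Finset.range (n / 2), g (2 * j + 2) ≤ ∑ i ∈ Finset.range (n + 1), g i := by
  have h1 : ∑ j ∈ Finset.range (n / 2), g (2 * j + 2) =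
      ∑ i ∈ (Finset.range (n / 2)).image (fun j => 2 * j + 2), g i := by
    rw [Finset.sum_image]
    intro a _ b _ hab
    simp only at hab
    omega
  rw [h1]
  refine Finset.sum_le_sum_of_subset fun i hi => ?_
  rw [Finset.mem_image] at hi
  obtain ⟨j, hj, rfl⟩ := hi
  rw [Finset.mem_range] at hj ⊢
  omega

/-- **The explicit lower bound.** -/
theorem lowB_le (hR : IsReal Λ R) {T A P : C} [ExactPairing P P] (hs : SymPair P)
    (h : IsSum T A P) (hP : R.H.map (𝟙 P) = 0) (hne : 𝟙 P ≠ 0) (n : ℕ) :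
    (lowB (fun k => numRank Λ (tp T k)) n : ℕ∞) ≤ dimE Λ (homSub hR (𝟙_ C) (tp T n)) := by
  have h1 : dimE Λ (homSub hR (𝟙_ C) (tp T n)) = dimE Λ ((cycF hR).obj (tp T n)) := rfl
  rw [h1, dim_tp h]
  refine le_trans ?_ (sum_even_le n fun i => (n.choose i : ℕ∞) *
    dimE Λ ((cycF hR).obj (tp A (n - i) ⊗ tp P i)))
  unfold lowB
  push_cast
  refine Finset.sum_le_sum fun j hj => ?_
  rw [mul_assoc]
  gcongr
  rw [numRank_eq_of_sum hR h hP]
  refine le_trans ?_ (dim_num hR (cycF hR) (tp A (n - (2 * j + 2))) (tp P (2 * j + 2)))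
  gcongr
  have := three_pow_le hR hs hP hne j
  push_cast at this
  exact this

end Pool.Agent.U724.PH
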