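import Pool.Agent.U724.BL.Sum
import Pool.Agent.U724.PH.Defs

/-!
# Multiplicities of direct summands
-/

set_option autoImplicit false
set_option linter.unusedSectionVars false

open CategoryTheory MonoidalCategory Module
open Pool.Agent.N64.AF Pool.Agent.U724.NT Pool.Agent.U724.BL

namespace Pool.Agent.U724.PH

universe v u t x

variable {C : Type u} [Category.{v} C] [Preadditive C]

/-- The sum of `h` copies of `Y` is a direct summand of `Z`. -/
def Mult (h : ℕ) (Y Z : C) : Prop :=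
  ∃ (f : Fin h → (Y ⟶ Z)) (g : Fin h → (Z ⟶ Y)), ∀ k l, f k ≫ g l = if k = l then 𝟙 Y else 0

lemma mult_of_retract {Y Z : C} (i : Y ⟶ Z) (r : Z ⟶ Y) (h : i ≫ r = 𝟙 Y) : Mult 1 Y Z :=
  ⟨fun _ => i, fun _ => r, fun k l => by
    rw [h, if_pos (Subsingleton.elim k l)]⟩

lemma mult_refl (Y : C) : Mult 1 Y Y := mult_of_retract (𝟙 Y) (𝟙 Y) (Category.id_comp _)

lemma Mult.trans {h h' : ℕ} {Y Z W : C} (a : Mult h Y Z) (b : Mult h' Z W) :
    Mult (h * h') Y W := by
  obtain ⟨f, g, e⟩ := a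
  obtain ⟨f', g', e'⟩ := b
  refine ⟨fun k => f (finProdFinEquiv.symm k).1 ≫ f' (finProdFinEquiv.symm k).2,
    fun l => g' (finProdFinEquiv.symm l).2 ≫ g (finProdFinEquiv.symm l).1, fun k l => ?_⟩
  rw [Category.assoc, ← Category.assoc (f' _), e']
  by_cases h2 : (finProdFinEquiv.symm k).2 = (finProdFinEquiv.symm l).2
  · rw [if_pos h2, Category.id_comp, e]
    by_cases h1 : (finProdFinEquiv.symm k).1 = (finProdFinEquiv.symm l).1
    · have h3 : k = l := finProdFinEquiv.symm.injective (Prod.ext h1 h2)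
      rw [if_pos h1, if_pos h3]
    · rw [if_neg h1, if_neg (fun h => h1 (by rw [h]))]
  · rw [if_neg h2, Limits.zero_comp, Limits.comp_zero, if_neg (fun h => h2 (by rw [h]))]

lemma Mult.iso {h : ℕ} {Y Z W : C} (a : Mult h Y Z) (i : Z ≅ W) : Mult h Y W := by
  have := a.trans (mult_of_retract i.hom i.inv i.hom_inv_id)
  rwa [mul_one] at this

lemma Mult.iso' {h : ℕ} {Y Z W : C} (a : Mult h Y Z) (i : W ≅ Y) : Mult h W Z := by
  have := (mult_of_retract i.hom i.inv i.hom_inv_id).trans a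
  rwa [one_mul] at this

lemma Mult.map {D : Type*} [Category D] [Preadditive D] (F : C ⥤ D) [F.Additive] {h : ℕ}
    {Y Z : C} (a : Mult h Y Z) : Mult h (F.obj Y) (F.obj Z) := by
  obtain ⟨f, g, e⟩ := a
  refine ⟨fun k => F.map (f k), fun l => F.map (g l), fun k l => ?_⟩
  rw [← F.map_comp, e]
  split_ifs with hkl
  · exact F.map_id _
  · exact F.map_zero _ _

lemma IsSum.map {D : Type*} [Category D] [Preadditive D] (F : C ⥤ D) [F.Additive]
    {T A P : C} (a : IsSum T A P) : IsSum (F.obj T) (F.obj A) (F.obj P) := by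
  obtain ⟨iA, rA, iP, rP, h1, h2, h3, h4, h5⟩ := a
  refine ⟨F.map iA, F.map rA, F.map iP, F.map rP, ?_, ?_, ?_, ?_, ?_⟩
  · rw [← F.map_comp, h1, F.map_id]
  · rw [← F.map_comp, h2, F.map_id]
  · rw [← F.map_comp, h3, F.map_zero]
  · rw [← F.map_comp, h4, F.map_zero]
  · rw [← F.map_comp, ← F.map_comp, ← F.map_add, h5, F.map_id]

lemma IsSum.iso {T A P T' : C} (a : IsSum T A P) (i : T' ≅ T) : IsSum T' A P := by
  obtain ⟨iA, rA, iP, rP, h1, h2, h3, h4, h5⟩ := a
  refine ⟨iA ≫ i.inv, i.hom ≫ rA, iP ≫ i.inv, i.hom ≫ rP, ?_, ?_, ?_, ?_, ?_⟩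
  · simp [h1]
  · simp [h2]
  · simp [h3]
  · simp [h4]
  · have : (i.hom ≫ rA) ≫ iA ≫ i.inv + (i.hom ≫ rP) ≫ iP ≫ i.inv =
        i.hom ≫ (rA ≫ iA + rP ≫ iP) ≫ i.inv := by
      simp only [Category.assoc, Preadditive.comp_add, Preadditive.add_comp]
    rw [this, h5, Category.id_comp, Iso.hom_inv_id]

lemma IsSum.congr {T A P A' P' : C} (a : IsSum T A P) (i : A ≅ A') (j : P ≅ P') :
    IsSum T A' P' := by
  obtain ⟨iA, rA, iP, rP, h1, h2, h3, h4, h5⟩ := a
  refine ⟨i.inv ≫ iA, rA ≫ i.hom, j.inv ≫ iP, rP ≫ j.hom, ?_, ?_, ?_, ?_, ?_⟩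
  · rw [Category.assoc, ← Category.assoc iA, h1, Category.id_comp, Iso.inv_hom_id]
  · rw [Category.assoc, ← Category.assoc iP, h2, Category.id_comp, Iso.inv_hom_id]
  · rw [Category.assoc, ← Category.assoc iA, h3, Limits.zero_comp, Limits.comp_zero]
  · rw [Category.assoc, ← Category.assoc iP, h4, Limits.zero_comp, Limits.comp_zero]
  · simp only [Category.assoc, Iso.hom_inv_id_assoc]
    exact h5

section Dim

variable {Λ : Type t} [Field Λ]

lemma cap (F : C ⥤ ModuleCat.{x} Λ) {Y Z W : C} (f : Y ⟶ Z) (g : Z ⟶ W) (a : F.obj Y) :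
    (F.map (f ≫ g)).hom a = (F.map g).hom ((F.map f).hom a) := by
  rw [F.map_comp]
  rfl

lemma dimE_fun (V : Type x) [AddCommGroup V] [Module Λ V] (h : ℕ) :
    dimE Λ (Fin h → V) = h * dimE Λ V := by
  rw [dimE, dimE, rank_pi, Cardinal.sum_const, map_mul]
  simp

lemma dimE_le_of_inj {V W : Type x} [AddCommGroup V] [Module Λ V] [AddCommGroup W] [Module Λ W]
    (f : V →ₗ[Λ] W) (hf : Function.Injective f) : dimE Λ V ≤ dimE Λ W :=
  Cardinal.toENat.monotone' (LinearMap.rank_le_of_injective f hf)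

lemma dimE_prod (V W : Type x) [AddCommGroup V] [Module Λ V] [AddCommGroup W] [Module Λ W] :
    dimE Λ (V × W) = dimE Λ V + dimE Λ W := by
  rw [dimE, dimE, dimE, rank_prod', map_add]

lemma Mult.dim {h : ℕ} {Y Z : C} (a : Mult h Y Z) (F : C ⥤ ModuleCat.{x} Λ) [F.Additive] :
    (h : ℕ∞) * dimE Λ (F.obj Y) ≤ dimE Λ (F.obj Z) := by
  obtain ⟨f, g, e⟩ := a
  rw [← dimE_fun]
  let φ : (Fin h → F.obj Y) →ₗ[Λ] F.obj Z :=
    ∑ k, (F.map (f k)).hom ∘ₗ LinearMap.proj k
  refine dimE_le_of_inj φ ?_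
  intro a b hab
  funext l
  have key : ∀ c : Fin h → F.obj Y, (F.map (g l)).hom (φ c) = c l := by
    intro c
    have h1 : φ c = ∑ k, (F.map (f k)).hom (c k) := by
      simp only [φ, LinearMap.sum_apply, LinearMap.comp_apply, LinearMap.proj_apply]
    rw [h1, map_sum]
    have h2 : ∀ k, (F.map (g l)).hom ((F.map (f k)).hom (c k)) = if k = l then c k else 0 := by
      intro k
      rw [← cap, e]
      split_ifs with hkl
      · rw [F.map_id]
        rfl
      · rw [F.map_zero]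
        rfl
    rw [Finset.sum_congr rfl fun k _ => h2 k, Finset.sum_ite_eq' Finset.univ l c,
      if_pos (Finset.mem_univ l)]
  rw [← key a, ← key b, hab]

lemma IsSum.dim {T A P : C} (a : IsSum T A P) (F : C ⥤ ModuleCat.{x} Λ) [F.Additive] :
    dimE Λ (F.obj T) = dimE Λ (F.obj A) + dimE Λ (F.obj P) := by
  obtain ⟨iA, rA, iP, rP, h1, h2, h3, h4, h5⟩ := a
  rw [← dimE_prod]
  have z : ∀ {X Y : C} (c : F.obj X), (F.map (0 : X ⟶ Y)).hom c = 0 := by
    intro X Y c
    rw [F.map_zero]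
    rfl
  have o : ∀ {X : C} (c : F.obj X), (F.map (𝟙 X)).hom c = c := by
    intro X c
    rw [F.map_id]
    rfl
  refine dimE_congr (LinearEquiv.ofLinearMap
    ((F.map rA).hom.prod (F.map rP).hom) ((F.map iA).hom.coprod (F.map iP).hom) ?_ ?_)
  · apply LinearMap.ext
    rintro ⟨a, p⟩
    apply Prod.ext
    · change (F.map rA).hom ((F.map iA).hom a + (F.map iP).hom p) = a
      rw [map_add, ← cap, ← cap, h1, h4, z, o, add_zero]
    · change (F.map rP).hom ((F.map iA).hom a + (F.map iP).hom p) = p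
      rw [map_add, ← cap, ← cap, h2, h3, z, o, zero_add]
  · apply LinearMap.ext
    intro a
    change (F.map iA).hom ((F.map rA).hom a) + (F.map iP).hom ((F.map rP).hom a) = a
    rw [← cap, ← cap]
    have h6 : (F.map (rA ≫ iA)).hom a + (F.map (rP ≫ iP)).hom a =
        (F.map (rA ≫ iA + rP ≫ iP)).hom a := by
      rw [F.map_add]
      rfl
    rw [h6, h5, o]

end Dim

end Pool.Agent.U724.PH
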