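import Pool.Agent.U724.PH.KimC

/-!
# The growth of the endomorphisms of the powers of an object
-/

set_option autoImplicit false
set_option linter.unusedSectionVars false
set_option backward.isDefEq.respectTransparency false
set_option backward.defeqAttrib.useBackward true

open CategoryTheory Limits MonoidalCategory Module Opposite Filter Topology
open Pool.Agent.Y112.SR Pool.Agent.Y112.KD Pool.Agent.N64.AF Pool.Agent.U724.NT
open Pool.Agent.U724.BL Pool.Agent.N645.AFK1 Pool.Agent.R905 Pool.Agent.N861.AF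
open Pool.Agent.Y116.MT (tr)
open scoped ENNReal

namespace Pool.Agent.U724.PH

universe v u w t x

variable {C : Type u} [Category.{v} C] [Preadditive C] [MonoidalCategory C]
  [MonoidalPreadditive C] [SymmetricCategory C] [RightRigidCategory C]
  {Λ : Type t} [Field Λ] [CharZero Λ] [Linear Λ C] [MonoidalLinear Λ C]
  {K : Type w} [Field K] [IsAlgClosed K] [Algebra Λ K] {R : SuperRealisation C K}

/-- Whiskering with an object which has an endomorphism of nonzero trace is injective. -/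
lemma zero_of_whisker (hR : IsReal Λ R) {X Z Y : C} {f : Y ⟶ Y} (hf : tr f ≠ 0) {u : X ⟶ Z}
    (h : u ▷ Y = 0) : u = 0 := by
  obtain ⟨q, hq⟩ := hR.unit (tr f)
  have hq0 : q ≠ 0 := by
    rintro rfl
    exact hf (by rw [hq, zero_smul])
  have h1 : u ▷ (Y ⊗ Yᘁ) = 0 := by
    rw [whiskerRight_tensor, h, MonoidalPreadditive.zero_whiskerRight, zero_comp, comp_zero]
  have h2 : u ▷ 𝟙_ C ≫ Z ◁ tr f = 0 := by
    unfold Pool.Agent.Y116.MT.tr
    rw [MonoidalCategory.whiskerLeft_comp, ← whisker_exchange_assoc, h1, zero_comp, comp_zero]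
  rw [hq, MonoidalLinear.whiskerLeft_smul, MonoidalCategory.whiskerLeft_id, Linear.comp_smul,
    Category.comp_id] at h2
  have h3 : u ▷ 𝟙_ C = 0 := (smul_eq_zero.1 h2).resolve_left hq0
  have h4 : u = (ρ_ X).inv ≫ (u ▷ 𝟙_ C) ≫ (ρ_ Z).hom := by simp
  rw [h4, h3, zero_comp, comp_zero]

/-- There are endomorphisms of nonzero trace. -/
lemma exists_tr_ne (hR : IsReal Λ R) {T : C} (hT : R.CPlus T) (hb : 0 < bt R T) (k : ℕ) :
    ∃ f : tp T k ⟶ tp T k, tr f ≠ 0 := by
  by_contra hcon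
  push Not at hcon
  have h1 : numIdeal Λ (tp T k) (tp T k) = ⊤ := by
    rw [eq_top_iff]
    exact fun u _ g => hcon (u ≫ g)
  have h2 := growth (Λ := Λ) hR hT k
  have h3 : nr Λ (𝟙 (tp T k)) (𝟙 (tp T k)) = 0 := by
    have h4 : Subsingleton ((tp T k ⟶ tp T k) ⧸ numIdeal Λ (tp T k) (tp T k)) := by
      rw [h1]
      refine ⟨fun a b => ?_⟩
      obtain ⟨a, rfl⟩ := Submodule.Quotient.mk_surjective _ a
      obtain ⟨b, rfl⟩ := Submodule.Quotient.mk_surjective _ b
      exact (Submodule.Quotient.eq _).2 trivial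
    unfold nr
    exact finrank_zero_of_subsingleton
  rw [h3, mul_zero] at h2
  have h4 : 0 < (bt R T ^ 2) ^ k := by positivity
  omega

/-- The monotonicity of the dimension of the space of the homologically trivial endomorphisms. -/
lemma end_mono (hR : IsReal Λ R) {T : C} (hT : R.CPlus T) (hb : 0 < bt R T) {m n : ℕ}
    (hmn : m ≤ n) : dimE Λ (homSub hR (tp T m) (tp T m)) ≤
      dimE Λ (homSub hR (tp T n) (tp T n)) := by
  obtain ⟨k, rfl⟩ := Nat.exists_eq_add_of_le hmn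
  obtain ⟨i, -⟩ := exists_tp_iso T m k
  obtain ⟨f, hf⟩ := exists_tr_ne (Λ := Λ) hR hT hb k
  let φ : homSub hR (tp T m) (tp T m) →ₗ[Λ] homSub hR (tp T (m + k)) (tp T (m + k)) :=
    { toFun := fun u => ⟨i.inv ≫ (u.1 ▷ tp T k) ≫ i.hom, by
        change R.H.map (i.inv ≫ (u.1 ▷ tp T k) ≫ i.hom) = 0
        have h1 : R.H.map u.1 = 0 := u.2
        rw [R.H.map_comp, R.H.map_comp, Functor.Monoidal.map_whiskerRight, h1]
        simp⟩
      map_add' := fun a b => Subtype.ext (by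
        change i.inv ≫ ((a.1 + b.1) ▷ tp T k) ≫ i.hom = _
        rw [MonoidalPreadditive.add_whiskerRight, Preadditive.add_comp, Preadditive.comp_add]
        rfl)
      map_smul' := fun c a => Subtype.ext (by
        change i.inv ≫ ((c • a.1) ▷ tp T k) ≫ i.hom = _
        rw [MonoidalLinear.smul_whiskerRight, Linear.smul_comp, Linear.comp_smul]
        rfl) }
  refine dimE_le_of_inj φ ?_
  rw [injective_iff_map_eq_zero]
  intro u hu
  have h1 : i.inv ≫ (u.1 ▷ tp T k) ≫ i.hom = 0 := congrArg Subtype.val hu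
  have h2 : u.1 ▷ tp T k = 0 := by
    have h3 : u.1 ▷ tp T k = i.hom ≫ (i.inv ≫ (u.1 ▷ tp T k) ≫ i.hom) ≫ i.inv := by simp
    rw [h3, h1, zero_comp, comp_zero]
  exact Subtype.ext (zero_of_whisker hR hf h2)

/-- Nilpotence descends to smaller powers. -/
lemma nil_down (hR : IsReal Λ R) {T : C} (hT : R.CPlus T) (hb : 0 < bt R T) {m n : ℕ}
    (hmn : m ≤ n) (h : HomNil R (tp T n)) : HomNil R (tp T m) := by
  obtain ⟨k, rfl⟩ := Nat.exists_eq_add_of_le hmn
  obtain ⟨i, -⟩ := exists_tp_iso T m k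
  obtain ⟨f, hf⟩ := exists_tr_ne (Λ := Λ) hR hT hb k
  intro y hy
  let y' : End (tp T (m + k)) := i.inv ≫ ((y : tp T m ⟶ tp T m) ▷ tp T k) ≫ i.hom
  obtain ⟨l, hl⟩ := h y' (by
    change R.H.map (i.inv ≫ ((y : tp T m ⟶ tp T m) ▷ tp T k) ≫ i.hom) = 0
    rw [R.H.map_comp, R.H.map_comp, Functor.Monoidal.map_whiskerRight, hy]
    simp)
  refine ⟨l, ?_⟩
  have h1 : ∀ n : ℕ, ((y' ^ n : End (tp T (m + k))) : tp T (m + k) ⟶ tp T (m + k)) =
      i.inv ≫ (((y ^ n : End (tp T m)) : tp T m ⟶ tp T m) ▷ tp T k) ≫ i.hom := by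
    intro n
    induction n with
    | zero =>
      change 𝟙 _ = i.inv ≫ ((𝟙 (tp T m)) ▷ tp T k) ≫ i.hom
      simp
    | succ n ih =>
      rw [pow_succ, pow_succ, End.mul_def, End.mul_def, ih, comp_whiskerRight]
      change (i.inv ≫ ((y : tp T m ⟶ tp T m) ▷ tp T k) ≫ i.hom) ≫ _ = _
      simp
  have h2 := h1 l
  rw [hl] at h2
  have h3 : ((y ^ l : End (tp T m)) : tp T m ⟶ tp T m) ▷ tp T k = 0 := by
    have h4 : ((y ^ l : End (tp T m)) : tp T m ⟶ tp T m) ▷ tp T k =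
        i.hom ≫ (i.inv ≫ (((y ^ l : End (tp T m)) : tp T m ⟶ tp T m) ▷ tp T k) ≫ i.hom) ≫
          i.inv := by simp
    rw [h4, ← h2]
    have h5 : i.hom ≫ (0 : tp T (m + k) ⟶ tp T (m + k)) ≫ i.inv = 0 := by simp
    exact h5
  exact zero_of_whisker hR hf h3

/-- **The growth gap** for the endomorphisms of the powers of an arbitrary object with `C⁺`. -/
theorem gap_end [IsIdempotentComplete C] (hR : IsReal Λ R) {T : C} (hT : R.CPlus T)
    (hb : 0 < bt R T) {M : ℕ} (hM : 0 < M) {y : End (tp T M)}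
    (hy : R.H.map (y : tp T M ⟶ tp T M) = 0)
    (hn : ¬ IsNilpotent y) {c : ℝ} (hc : 0 ≤ c) (hcb : c ^ M < ((bt R T : ℝ) ^ M + 1) ^ 2) :
    ∀ᶠ n : ℕ in atTop, ENNReal.ofReal (c ^ n) ≤
      ((dimE Λ (homSub hR (tp T n) (tp T n)) : ℕ∞) : ℝ≥0∞) := by
  have hbR : (1 : ℝ) ≤ bt R T := by exact_mod_cast hb
  by_cases hfin : Module.Finite Λ (homSub hR (tp T M) (tp T M))
  swap
  · filter_upwards [eventually_ge_atTop M] with n hn'
    have h1 := dimE_top hfin
    have h2 := end_mono (Λ := Λ) hR hT hb hn'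
    rw [h1, top_le_iff] at h2
    rw [h2]
    exact le_top
  obtain ⟨A, P, hS, hP, hne⟩ := exists_phantom hR hfin hy hn
  have hcA : R.CPlus A := by
    obtain ⟨iA, rA, -, -, h1, -⟩ := hS
    exact cplus_ret iA rA h1 (cplus_tp hR hT M)
  have hbtA : bt R A = bt R T ^ M := by rw [bt_of_sum hS hP, bt_tp]
  set x : ℝ := (bt R T : ℝ) ^ M with hx
  have hx0 : 0 < x := by positivity
  set β : ℕ → ℕ := fun k => nr Λ (𝟙 (tp A k)) (𝟙 (tp A k)) with hβ
  have hgr : ∀ k : ℕ, (x ^ 2) ^ k ≤ ((k : ℝ) + 1) ^ (bt R A ^ 2) * β k := by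
    intro k
    have h1 := growth (Λ := Λ) hR hcA k
    have h2 : (((bt R A ^ 2) ^ k : ℕ) : ℝ) ≤ (((k + 1) ^ (bt R A ^ 2) * β k : ℕ) : ℝ) := by
      exact_mod_cast h1
    push_cast at h2
    rw [hbtA] at h2 ⊢
    push_cast at h2
    exact h2
  -- we may assume `c ≥ 1`
  set c' := max c 1 with hc'
  have hc1 : 1 ≤ c' := le_max_right _ _
  have hc0 : 0 ≤ c' ^ M := by positivity
  have hcb' : c' ^ M < (x + 1) ^ 2 := by
    rcases le_total c 1 with h1 | h1
    · rw [hc', max_eq_right h1, one_pow]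
      nlinarith
    · rw [hc', max_eq_left h1]
      exact hcb
  have hq : √(c' ^ M) < x + 1 := (Real.sqrt_lt' (by linarith)).2 hcb'
  have hev := growth_sq hx0 (bt R A ^ 2) β hgr (A := c' ^ M) hc0
    (q := √(c' ^ M)) (Real.sqrt_nonneg _) hq
  rw [Real.sq_sqrt hc0] at hev
  obtain ⟨n₀, hn₀⟩ := eventually_atTop.1 hev
  filter_upwards [eventually_ge_atTop (M * n₀)] with n hnn
  set m := n / M with hm
  have hm0 : n₀ ≤ m := by
    rw [hm, Nat.le_div_iff_mul_le hM, mul_comm]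
    exact hnn
  have h1 := hn₀ m hm0
  have h2 : c ^ n ≤ c' ^ M * (c' ^ M) ^ m := by
    have h3 : c ^ n ≤ c' ^ n := pow_le_pow_left₀ hc (le_max_left _ _) n
    have h4 : c' ^ n ≤ c' ^ (M + M * m) := by
      apply pow_le_pow_right₀ hc1
      have h5 := Nat.div_add_mod n M
      have h6 := Nat.mod_lt n hM
      rw [← hm] at h5
      omega
    refine (h3.trans h4).trans (le_of_eq ?_)
    rw [pow_add, ← pow_mul]
  have h3 := h2.trans h1
  have h4 : ∑ j ∈ Finset.range m, (m.choose (j + 1) : ℝ) ^ 2 * (β (m - (j + 1)) : ℝ) =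
      ((∑ j ∈ Finset.range m, (m.choose (j + 1)) ^ 2 * β (m - (j + 1)) : ℕ) : ℝ) := by
    push_cast
    rfl
  rw [h4] at h3
  have h5 := ENNReal.ofReal_le_ofReal h3
  rw [ENNReal.ofReal_natCast] at h5
  refine h5.trans ?_
  have h6 := end_lower hR hS hP hne m
  obtain ⟨i⟩ := exists_pow_iso T M m
  have h7 : dimE Λ (homSub hR (tp (tp T M) m) (tp (tp T M) m)) =
      dimE Λ (homSub hR (tp T (M * m)) (tp T (M * m))) := by
    rw [(addDim_target hR (tp (tp T M) m)).iso i]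
    exact (addDim_source hR (tp T (M * m))).iso i
  rw [h7] at h6
  have h8 : M * m ≤ n := by
    have h5 := Nat.div_add_mod n M
    rw [← hm] at h5
    omega
  have h9 := ENat.toENNReal_le.2 (h6.trans (end_mono hR hT hb h8))
  rw [ENat.toENNReal_coe] at h9
  exact h9

end Pool.Agent.U724.PH
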