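import Pool.Agent.U724.PH.Nc

/-!
# The dichotomy for objects which need not be self-dual
-/

set_option autoImplicit false
set_option linter.unusedSectionVars false
set_option backward.isDefEq.respectTransparency false
set_option backward.defeqAttrib.useBackward true

open CategoryTheory Limits MonoidalCategory Module Filter Topology
open Pool.Agent.Y112.SR Pool.Agent.Y112.KD
open Pool.Agent.Y116.MT (tr)
open Pool.Agent.R905 Pool.Agent.N64.AF Pool.Agent.N861.AF
open scoped ENNReal

namespace Pool.Agent.U724.PH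

universe v u w t x

variable {C : Type u} [Category.{v} C] [Preadditive C] [MonoidalCategory C]
  [MonoidalPreadditive C] [SymmetricCategory C] [RightRigidCategory C]
  [Linear ℚ C] [MonoidalLinear ℚ C] [IsIdempotentComplete C]
  {K : Type w} [Field K] [IsAlgClosed K] [Algebra ℚ K] {R : SuperRealisation C K}

/-- Kimura finite-dimensionality from nilpotence on the power of order `b + 1`. -/
theorem kimura_of_nil_two (hR : IsReal ℚ R) {T : C} (hT : R.CPlus T) (hb : 0 < bt R T)
    (hnil : HomNil R (tp T (bt R T + 1))) : IsKimuraFinite T := by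
  have hc := R_charZero R
  have hU : UnitQ C := by
    refine ⟨hR.unit, fun h => ?_⟩
    have h1 := bt_unit R
    have h2 : 𝟙 (R.H.obj (𝟙_ C)) = 0 := by
      rw [← CategoryTheory.Functor.map_id, h, Functor.map_zero]
    have h3 : IsZero (R.H.obj (𝟙_ C)) := (IsZero.iff_id_eq_zero _).2 h2
    have h4 : Subsingleton (R.H.obj (𝟙_ C)) := ModuleCat.subsingleton_of_isZero h3
    unfold bt at h1
    rw [finrank_zero_of_subsingleton] at h1
    exact zero_ne_one h1
  have hn : ∀ n, n ≤ bt R T + 1 → HomNil R (tp T n) := fun n hn => nil_down hR hT hb hn hnil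
  have hT1 : HomNil R T := (hn 1 (by omega)).retract (λ_ T).inv (λ_ T).hom (by simp)
  obtain ⟨E, O, i, r, i', r', h1, h2, h3, hE, hO⟩ := exists_parts R hT hT1
  have key : ∀ (P : C) (i : P ⟶ T) (r : T ⟶ P), i ≫ r = 𝟙 P →
      HomNil R (tp P (finrank K (R.H.obj P) + 1)) := by
    intro P i r hir
    have hle : finrank K (R.H.obj P) + 1 ≤ bt R T + 1 := Nat.succ_le_succ (bt_le i r hir)
    refine (hn _ hle).retract (tpm i _) (tpm r _) ?_
    rw [tpm_comp, hir, tpm_id]
  obtain ⟨n, hn1⟩ := asym_zero' R hU (E := E) 1 (by norm_num) (by rw [hE]; norm_num) (key E i r h1)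
  obtain ⟨m, hm⟩ := asym_zero' R hU (E := O) (-1) (by norm_num) (by rw [hO]; norm_num)
    (key O i' r' h2)
  rw [neg_neg] at hm
  exact (isKimuraFinite_iff T).2 ⟨E, O, i, r, i', r', h1, h2, h3, ⟨n, hn1⟩, m, hm⟩

/-- The dimension of the space of the homologically trivial endomorphisms of `T ^ n` is at least
`c ^ n` for all large `n`. -/
def EndGrows (hR : IsReal ℚ R) (T : C) (c : ℝ) : Prop :=
  ∀ᶠ n : ℕ in atTop, ENNReal.ofReal (c ^ n) ≤
    ((dimE ℚ (homSub hR (tp T n) (tp T n)) : ℕ∞) : ℝ≥0∞)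

theorem nil_or_endGrows (hR : IsReal ℚ R) {T : C} (hT : R.CPlus T) (hb : 0 < bt R T) {M : ℕ}
    (hM : 0 < M) :
    (∀ y : End (tp T M), R.H.map (y : tp T M ⟶ tp T M) = 0 → IsNilpotent y) ∨
      ∀ c : ℝ, 0 ≤ c → c ^ M < ((bt R T : ℝ) ^ M + 1) ^ 2 → EndGrows hR T c := by
  by_cases hn : ∀ y : End (tp T M), R.H.map (y : tp T M ⟶ tp T M) = 0 → IsNilpotent y
  · exact Or.inl hn
  · push Not at hn
    obtain ⟨y, hy, hn⟩ := hn
    exact Or.inr fun c hc hcb => gap_end hR hT hb hM hy hn hc hcb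

theorem kimura_or_endGrows (hR : IsReal ℚ R) {T : C} (hT : R.CPlus T) (hb : 0 < bt R T) :
    IsKimuraFinite T ∨ ∀ c : ℝ, 0 ≤ c →
      c ^ (bt R T + 1) < ((bt R T : ℝ) ^ (bt R T + 1) + 1) ^ 2 → EndGrows hR T c := by
  rcases nil_or_endGrows hR hT hb (Nat.succ_pos (bt R T)) with h1 | h1
  · exact Or.inl (kimura_of_nil_two hR hT hb h1)
  · exact Or.inr h1

end Pool.Agent.U724.PH
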