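import Pool.Agent.U724.PH.Mult
import Pool.Agent.U724.NT.Lin
import Pool.Agent.N64.AF.E1

/-!
# Multiplicities which come from numerical equivalence
-/

set_option autoImplicit false
set_option linter.unusedSectionVars false

open CategoryTheory Limits MonoidalCategory Module
open Pool.Agent.Y112.SR Pool.Agent.Y112.KD Pool.Agent.N64.AF Pool.Agent.U724.NT
open Pool.Agent.Y116.MT (tr)

namespace Pool.Agent.U724.PH

universe v u w t x

variable {C : Type u} [Category.{v} C] [Preadditive C] [MonoidalCategory C]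
  [MonoidalPreadditive C] [SymmetricCategory C] [RightRigidCategory C]
  {Λ : Type t} [Field Λ] [CharZero Λ] [Linear Λ C] [MonoidalLinear Λ C]
  {K : Type w} [Field K] [IsAlgClosed K] [Algebra Λ K] {R : SuperRealisation C K}

/-- Dual families of morphisms from and to the unit object. -/
theorem exists_dual (hR : IsReal Λ R) (A : C) :
    ∃ (x : Fin (numRank Λ A) → (𝟙_ C ⟶ A)) (z : Fin (numRank Λ A) → (A ⟶ 𝟙_ C)),
      ∀ i j, x i ≫ z j = if i = j then 𝟙 (𝟙_ C) else 0 := by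
  have hfin := finite_num hR (Λ := Λ) (𝟙_ C) A
  obtain ⟨τ, hτ, -⟩ := exists_tau hR (𝟙_ C)
  have hτ' : ∀ c : 𝟙_ C ⟶ 𝟙_ C, c = τ c • 𝟙 (𝟙_ C) := fun c => by
    rw [← hτ c, tr_unit hR]
  let P₀ : (𝟙_ C ⟶ A) →ₗ[Λ] (A ⟶ 𝟙_ C) →ₗ[Λ] Λ :=
    (Linear.comp (S := Λ) (𝟙_ C) A (𝟙_ C)).compr₂ τ
  have hP₀ : ∀ a b, P₀ a b = τ (a ≫ b) := fun a b => rfl
  have hker : numIdeal Λ (𝟙_ C) A ≤ LinearMap.ker P₀ := by
    intro a ha
    rw [LinearMap.mem_ker]
    apply LinearMap.ext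
    intro b
    rw [hP₀, (numTriv_unit_iff hR a).1 ha b, map_zero, LinearMap.zero_apply]
  let P := (numIdeal Λ (𝟙_ C) A).liftQ P₀ hker
  have hP : ∀ a b, P (Submodule.Quotient.mk a) b = τ (a ≫ b) := fun a b => rfl
  have hperp : perp P ⊤ = ⊥ := by
    rw [eq_bot_iff]
    intro a ha
    obtain ⟨a, rfl⟩ := Submodule.mkQ_surjective _ a
    rw [Submodule.mem_bot, Submodule.mkQ_apply, Submodule.Quotient.mk_eq_zero, mem_numIdeal,
      numTriv_unit_iff hR]
    intro b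
    have h1 : τ (a ≫ b) = 0 := ha b Submodule.mem_top
    rw [hτ' (a ≫ b), h1, zero_smul]
  have hrange : (⊤ : Submodule Λ (A ⟶ 𝟙_ C)).map P.flip = ⊤ := by
    apply Submodule.eq_top_of_finrank_eq
    have h1 := finrank_perp (P := P) ⊤
    rw [hperp, finrank_bot, add_zero] at h1
    rw [h1, Subspace.dual_finrank_eq]
  let e : Basis (Fin (numRank Λ A)) Λ ((𝟙_ C ⟶ A) ⧸ numIdeal Λ (𝟙_ C) A) :=
    Module.finBasis Λ _
  choose x hx using fun i => Submodule.mkQ_surjective (numIdeal Λ (𝟙_ C) A) (e i)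
  have h2 : ∀ j, ∃ z : A ⟶ 𝟙_ C, P.flip z = e.coord j := by
    intro j
    have h3 : e.coord j ∈ (⊤ : Submodule Λ (A ⟶ 𝟙_ C)).map P.flip := by
      rw [hrange]
      exact Submodule.mem_top
    obtain ⟨z, -, hz⟩ := h3
    exact ⟨z, hz⟩
  choose z hz using h2
  refine ⟨x, z, fun i j => ?_⟩
  have h3 : τ (x i ≫ z j) = if i = j then 1 else 0 := by
    have h4 : P.flip (z j) (e i) = e.coord j (e i) := by rw [hz j]
    rw [Basis.coord_apply, Basis.repr_self, Finsupp.single_apply, ← hx i] at h4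
    exact h4
  rw [hτ' (x i ≫ z j), h3]
  split_ifs with hij
  · rw [one_smul]
  · rw [zero_smul]

/-- The object `A ⊗ B` contains `numRank A` copies of `B`. -/
theorem mult_num (hR : IsReal Λ R) (A B : C) : Mult (numRank Λ A) B (A ⊗ B) := by
  obtain ⟨x, z, h⟩ := exists_dual (Λ := Λ) hR A
  refine ⟨fun i => (λ_ B).inv ≫ (x i ▷ B), fun j => (z j ▷ B) ≫ (λ_ B).hom, fun i j => ?_⟩
  rw [Category.assoc, ← Category.assoc (x i ▷ B), ← comp_whiskerRight, h]
  split_ifs with hij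
  · rw [id_whiskerRight, Category.id_comp, Iso.inv_hom_id]
  · rw [MonoidalPreadditive.zero_whiskerRight, zero_comp, comp_zero]

/-- The dimensions of the groups of morphisms to a product. -/
theorem dim_num (hR : IsReal Λ R) (F : C ⥤ ModuleCat.{x} Λ) [F.Additive] (A B : C) :
    (numRank Λ A : ℕ∞) * dimE Λ (F.obj B) ≤ dimE Λ (F.obj (A ⊗ B)) :=
  (mult_num hR A B).dim F

end Pool.Agent.U724.PH
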