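import Pool.Agent.U724.PH.Num
import Pool.Agent.U724.BL.Main

/-!
# The powers of a direct sum
-/

set_option autoImplicit false
set_option linter.unusedSectionVars false

open CategoryTheory Limits MonoidalCategory Module
open Pool.Agent.Y112.SR Pool.Agent.Y112.KD Pool.Agent.N64.AF Pool.Agent.U724.NT
open Pool.Agent.U724.BL

namespace Pool.Agent.U724.PH

universe v u w t x

/-- The rule of Pascal for sums. -/
lemma pascal (g : ℕ → ℕ∞) (n : ℕ) :
    ∑ i ∈ Finset.range (n + 2), ((n + 1).choose i : ℕ∞) * g i =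
      ∑ i ∈ Finset.range (n + 1), (n.choose i : ℕ∞) * g i +
        ∑ i ∈ Finset.range (n + 1), (n.choose i : ℕ∞) * g (i + 1) := by
  have h0 := sum_replicate (α := Unit) () (n + 1) (fun l => g l.length)
  have h1 := sum_replicate (α := Unit) () n (fun l => g l.length)
  have h2 := sum_replicate (α := Unit) () n (fun l => g (l.length + 1))
  simp only [List.length_replicate] at h0 h1 h2
  rw [← h0, ← h1, ← h2, List.replicate_succ, List.sublists'_cons, List.map_append,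
    List.sum_append, List.map_map]
  rfl

variable {C : Type u} [Category.{v} C] [Preadditive C] [MonoidalCategory C]
  [MonoidalPreadditive C] [SymmetricCategory C]
  {Λ : Type t} [Field Λ]

lemma dim_iso (F : C ⥤ ModuleCat.{x} Λ) {Y Z : C} (i : Y ≅ Z) :
    dimE Λ (F.obj Y) = dimE Λ (F.obj Z) :=
  dimE_congr (F.mapIso i).toLinearEquiv

lemma isSum_tensor {T A P : C} (h : IsSum T A P) (X Z : C) :
    IsSum (X ⊗ (T ⊗ Z)) (X ⊗ (A ⊗ Z)) (X ⊗ (P ⊗ Z)) :=
  (h.map (tensorRight Z)).map (tensorLeft X)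

lemma dim_step {T A P : C} (h : IsSum T A P) (F : C ⥤ ModuleCat.{x} Λ) [F.Additive]
    (n a j : ℕ) : dimE Λ (F.obj (tp T (n + 1) ⊗ (tp A a ⊗ tp P j))) =
      dimE Λ (F.obj (tp T n ⊗ (tp A (a + 1) ⊗ tp P j))) +
        dimE Λ (F.obj (tp T n ⊗ (tp A a ⊗ tp P (j + 1)))) := by
  have h1 := (isSum_tensor h (tp T n) (tp A a ⊗ tp P j)).dim F
  have e0 : dimE Λ (F.obj (tp T (n + 1) ⊗ (tp A a ⊗ tp P j))) =
      dimE Λ (F.obj (tp T n ⊗ (T ⊗ (tp A a ⊗ tp P j)))) := dim_iso F (α_ _ _ _)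
  have e1 : dimE Λ (F.obj (tp T n ⊗ (A ⊗ (tp A a ⊗ tp P j)))) =
      dimE Λ (F.obj (tp T n ⊗ (tp A (a + 1) ⊗ tp P j))) :=
    dim_iso F (whiskerLeftIso (tp T n) ((α_ _ _ _).symm ≪≫ whiskerRightIso (β_ _ _) _))
  have e2 : dimE Λ (F.obj (tp T n ⊗ (P ⊗ (tp A a ⊗ tp P j)))) =
      dimE Λ (F.obj (tp T n ⊗ (tp A a ⊗ tp P (j + 1)))) :=
    dim_iso F (whiskerLeftIso (tp T n) (β_ _ _ ≪≫ α_ _ _ _))
  rw [e0, h1, e1, e2]

theorem dim_pow {T A P : C} (h : IsSum T A P) (F : C ⥤ ModuleCat.{x} Λ) [F.Additive]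
    (n : ℕ) : ∀ a j : ℕ, dimE Λ (F.obj (tp T n ⊗ (tp A a ⊗ tp P j))) =
      ∑ i ∈ Finset.range (n + 1), (n.choose i : ℕ∞) *
        dimE Λ (F.obj (tp A (a + (n - i)) ⊗ tp P (j + i))) := by
  induction n with
  | zero =>
    intro a j
    rw [Finset.sum_range_one, Nat.choose_self, Nat.cast_one, one_mul]
    exact dim_iso F (λ_ _)
  | succ n ih =>
    intro a j
    rw [dim_step h F, ih, ih, pascal]
    congr 1
    · refine Finset.sum_congr rfl fun i hi => ?_
      rw [Finset.mem_range] at hi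
      have : a + 1 + (n - i) = a + (n + 1 - i) := by omega
      rw [this]
    · refine Finset.sum_congr rfl fun i hi => ?_
      have h1 : n - i = n + 1 - (i + 1) := by omega
      have h2 : j + 1 + i = j + (i + 1) := by omega
      rw [h1, h2]

/-- The dimension of the value on a power. -/
theorem dim_tp {T A P : C} (h : IsSum T A P) (F : C ⥤ ModuleCat.{x} Λ) [F.Additive] (n : ℕ) :
    dimE Λ (F.obj (tp T n)) = ∑ i ∈ Finset.range (n + 1), (n.choose i : ℕ∞) *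
      dimE Λ (F.obj (tp A (n - i) ⊗ tp P i)) := by
  have h1 := dim_pow h F n 0 0
  have e0 : dimE Λ (F.obj (tp T n ⊗ (tp A 0 ⊗ tp P 0))) = dimE Λ (F.obj (tp T n)) :=
    dim_iso F (whiskerLeftIso (tp T n) (λ_ (𝟙_ C)) ≪≫ ρ_ _)
  rw [e0] at h1
  rw [h1]
  refine Finset.sum_congr rfl fun i hi => ?_
  rw [Nat.zero_add, Nat.zero_add]

end Pool.Agent.U724.PH
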