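import Pool.Agent.U724.PH.Pow

/-!
# A self-dual object of dimension zero: three copies of `P` in `P ⊗ P ⊗ P`
-/

set_option autoImplicit false
set_option linter.unusedSectionVars false

open CategoryTheory Limits MonoidalCategory Module
open Pool.Agent.Y112.SR Pool.Agent.Y112.KD Pool.Agent.N64.AF Pool.Agent.U724.NT
open Pool.Agent.U724.BL

namespace Pool.Agent.U724.PH

universe v u w t x

section Def

variable {C : Type u} [Category.{v} C] [MonoidalCategory C] [SymmetricCategory C]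

variable (P : C)

/-- Exchange of the first two factors. -/
def sA : P ⊗ (P ⊗ P) ⟶ P ⊗ (P ⊗ P) := (α_ P P P).inv ≫ (β_ P P).hom ▷ P ≫ (α_ P P P).hom

/-- Exchange of the last two factors. -/
def sB : P ⊗ (P ⊗ P) ⟶ P ⊗ (P ⊗ P) := P ◁ (β_ P P).hom

lemma sA_sA : sA P ≫ sA P = 𝟙 _ := by
  unfold sA
  simp only [Category.assoc, Iso.hom_inv_id_assoc]
  rw [← comp_whiskerRight_assoc, SymmetricCategory.symmetry, id_whiskerRight, Category.id_comp,
    Iso.inv_hom_id]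

lemma sB_sB : sB P ≫ sB P = 𝟙 _ := by
  unfold sB
  rw [← MonoidalCategory.whiskerLeft_comp, SymmetricCategory.symmetry,
    MonoidalCategory.whiskerLeft_id]

lemma braid : sA P ≫ sB P ≫ sA P = sB P ≫ sA P ≫ sB P := by
  have h := BraidedCategory.yang_baxter P P P
  unfold sA sB
  simp only [Category.assoc]
  exact h

variable [ExactPairing P P]

/-- The first map. -/
def f1 : P ⟶ P ⊗ (P ⊗ P) := (ρ_ P).inv ≫ P ◁ (η_ P P)

/-- The first map in the other direction. -/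
def g1 : P ⊗ (P ⊗ P) ⟶ P := P ◁ (ε_ P P) ≫ (ρ_ P).hom

variable {P}

lemma f1_sB (h : SymPair P) : f1 P ≫ sB P = f1 P := by
  unfold f1 sB
  rw [Category.assoc, ← MonoidalCategory.whiskerLeft_comp, h.coev]

lemma sB_g1 (h : SymPair P) : sB P ≫ g1 P = g1 P := by
  unfold g1 sB
  rw [← Category.assoc, ← MonoidalCategory.whiskerLeft_comp, h.ev]

lemma f1_sA_sB : f1 P ≫ sA P ≫ sB P = (λ_ P).inv ≫ (η_ P P) ▷ P ≫ (α_ P P P).hom := by
  have h1 : (P ◁ (η_ P P)) ≫ (β_ P (P ⊗ P)).hom = (β_ P (𝟙_ C)).hom ≫ (η_ P P) ▷ P :=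
    BraidedCategory.braiding_naturality_right P (η_ P P)
  rw [BraidedCategory.braiding_tensor_right_hom, braiding_tensorUnit_right] at h1
  have h2 : f1 P ≫ sA P ≫ sB P = (ρ_ P).inv ≫ ((P ◁ (η_ P P)) ≫ (α_ P P P).inv ≫
      (β_ P P).hom ▷ P ≫ (α_ P P P).hom ≫ P ◁ (β_ P P).hom ≫ (α_ P P P).inv) ≫
        (α_ P P P).hom := by
    unfold f1 sA sB
    simp only [Category.assoc, Iso.inv_hom_id, Category.comp_id]
  rw [h2, h1]
  simp only [Category.assoc, Iso.inv_hom_id_assoc]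

lemma f1_sA_g1 (h : SymPair P) : f1 P ≫ sA P ≫ g1 P = 𝟙 P := by
  have h1 : f1 P ≫ sA P ≫ g1 P = (f1 P ≫ sA P ≫ sB P) ≫ g1 P := by
    rw [Category.assoc, Category.assoc, sB_g1 h]
  rw [h1, f1_sA_sB]
  unfold g1
  have h2 := ExactPairing.evaluation_coevaluation P P
  simp only [Category.assoc]
  rw [reassoc_of% h2]
  simp

end Def

section Gram

variable {C : Type u} [Category.{v} C] [Preadditive C] [MonoidalCategory C]
  [MonoidalPreadditive C] [SymmetricCategory C] {P : C} [ExactPairing P P]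

lemma f1_g1 (h0 : η_ P P ≫ ε_ P P = 0) : f1 P ≫ g1 P = 0 := by
  unfold f1 g1
  rw [Category.assoc, ← Category.assoc (P ◁ _), ← MonoidalCategory.whiskerLeft_comp, h0,
    MonoidalPreadditive.whiskerLeft_zero, zero_comp, comp_zero]

/-- The three maps. -/
def ff (P : C) [ExactPairing P P] : Fin 3 → (P ⟶ P ⊗ (P ⊗ P)) :=
  ![f1 P, f1 P ≫ sA P, f1 P ≫ sA P ≫ sB P]

/-- The three maps in the other direction. -/
def gg (P : C) [ExactPairing P P] : Fin 3 → (P ⊗ (P ⊗ P) ⟶ P) :=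
  ![g1 P, sA P ≫ g1 P, sB P ≫ sA P ≫ g1 P]

lemma gram (h : SymPair P) (h0 : η_ P P ≫ ε_ P P = 0) (k l : Fin 3) :
    ff P k ≫ gg P l = if k = l then 0 else 𝟙 P := by
  have t := f1_sA_g1 h
  have z := f1_g1 h0
  have fb := f1_sB h
  have bg := sB_g1 h
  have br := braid P
  have fb' : ∀ {W : C} (w : P ⊗ (P ⊗ P) ⟶ W), f1 P ≫ sB P ≫ w = f1 P ≫ w := fun w => by
    rw [← Category.assoc, fb]
  have aa' : ∀ {W : C} (w : P ⊗ (P ⊗ P) ⟶ W), sA P ≫ sA P ≫ w = w := fun w => by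
    rw [← Category.assoc, sA_sA, Category.id_comp]
  have bb' : ∀ {W : C} (w : P ⊗ (P ⊗ P) ⟶ W), sB P ≫ sB P ≫ w = w := fun w => by
    rw [← Category.assoc, sB_sB, Category.id_comp]
  have aba : f1 P ≫ sA P ≫ sB P ≫ sA P ≫ g1 P = 𝟙 P := by
    have h1 : f1 P ≫ sA P ≫ sB P ≫ sA P ≫ g1 P = f1 P ≫ (sA P ≫ sB P ≫ sA P) ≫ g1 P := by
      simp only [Category.assoc]
    rw [h1, br]
    simp only [Category.assoc]
    rw [fb', bg, t]
  fin_cases k <;> fin_cases l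
  · exact z
  · exact t
  · change f1 P ≫ sB P ≫ sA P ≫ g1 P = 𝟙 P
    rw [fb', t]
  · change (f1 P ≫ sA P) ≫ g1 P = 𝟙 P
    rw [Category.assoc, t]
  · change (f1 P ≫ sA P) ≫ sA P ≫ g1 P = 0
    rw [Category.assoc, aa', z]
  · change (f1 P ≫ sA P) ≫ sB P ≫ sA P ≫ g1 P = 𝟙 P
    rw [Category.assoc, aba]
  · change (f1 P ≫ sA P ≫ sB P) ≫ g1 P = 𝟙 P
    simp only [Category.assoc]
    rw [bg, t]
  · change (f1 P ≫ sA P ≫ sB P) ≫ sA P ≫ g1 P = 𝟙 P
    simp only [Category.assoc]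
    exact aba
  · change (f1 P ≫ sA P ≫ sB P) ≫ sB P ≫ sA P ≫ g1 P = 0
    simp only [Category.assoc]
    rw [bb', aa', z]

/-- Three copies of `P` in `P ⊗ P ⊗ P`. -/
theorem mult_three (Λ : Type t) [Field Λ] [CharZero Λ] [Linear Λ C] (h : SymPair P)
    (h0 : η_ P P ≫ ε_ P P = 0) : Mult 3 P (P ⊗ (P ⊗ P)) := by
  have hg := gram h h0
  refine ⟨ff P, fun l => (2⁻¹ : Λ) • (gg P 0 + gg P 1 + gg P 2) - gg P l, fun k l => ?_⟩
  rw [Preadditive.comp_sub, Linear.comp_smul, Preadditive.comp_add, Preadditive.comp_add, hg, hg,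
    hg, hg]
  have h2 : (2⁻¹ : Λ) • (𝟙 P + 𝟙 P) = 𝟙 P := by
    rw [← two_smul Λ (𝟙 P), smul_smul, inv_mul_cancel₀ (two_ne_zero), one_smul]
  have h3 : (if k = 0 then (0 : P ⟶ P) else 𝟙 P) + (if k = 1 then (0 : P ⟶ P) else 𝟙 P) +
      (if k = 2 then (0 : P ⟶ P) else 𝟙 P) = 𝟙 P + 𝟙 P := by
    fin_cases k
    · simp
    · simp
    · simp
  rw [h3, h2]
  split_ifs with hkl
  · rw [sub_zero]
  · rw [sub_self]

/-- The powers. -/
theorem mult_tp (Λ : Type t) [Field Λ] [CharZero Λ] [Linear Λ C] (h : SymPair P)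
    (h0 : η_ P P ≫ ε_ P P = 0) (k : ℕ) : Mult (3 ^ k) (tp P 2) (tp P (2 * k + 2)) := by
  induction k with
  | zero => exact mult_refl _
  | succ k ih =>
    have h1 : Mult 3 (tp P (2 * k + 1) ⊗ P) (tp P (2 * k + 1) ⊗ (P ⊗ (P ⊗ P))) :=
      (mult_three Λ h h0).map (tensorLeft (tp P (2 * k + 1)))
    have h2 : Mult 3 (tp P (2 * k + 2)) (tp P (2 * (k + 1) + 2)) :=
      h1.iso ((α_ (tp P (2 * k + 1)) P (P ⊗ P)).symm ≪≫ (α_ (tp P (2 * k + 1) ⊗ P) P P).symm)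
    rw [pow_succ]
    exact ih.trans h2

end Gram

end Pool.Agent.U724.PH
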